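import Pool.Agent.H.MP_60a1a2_co.Lb.Def

/-!
# Forests and linear independence

PROOF: `SimpleGraph.isAcyclic_iff_forall_edge_isBridge` (every edge is a bridge) and
`SimpleGraph.isBridge_iff` / `isBridge_iff_adj_and_not_isAdj..`: `{a, b}` is a bridge iff `a`, `b` are not reachable in the graph without
this edge. `LinearIndepOn F2 wv S ↔ ∀ x ∈ S, wv x ∉ span (wv '' (S \ {x}))` (`linearIndepOn_iff_notMem_span`,
`linearIndependent_iff_notMem_span`). For `x = s(a, b)`, `a ≠ b`, `S' = S \ {x}`: `wv x ∈ span (wv '' S')` iff `a` is reachable from `b` in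
`fromEdgeSet S'`: (if reachable) induction on the walk, `pv a c = pv a b + pv b c` (characteristic 2); (if not) the
functional `y ↦ ∑ u reachable from a, y u` vanishes on `wv '' S'` and is `1` at `pv a b`.
-/

set_option autoImplicit false

open Module Submodule

namespace Pool.Agent.H.MP_60a1a2_co

private theorem Ac_add {x : F2} : x + x = 0 := by
  revert x
  decide

private theorem Ac_pv_self {m : ℕ} (a : Fin m) : (pv a a : Fin m → F2) = 0 := by
  funext i
  exact Ac_add

private theorem Ac_pv_trans {m : ℕ} (a b c : Fin m) :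
    (pv a c : Fin m → F2) = pv a b + pv b c := by
  have h : (Pi.single b 1 : Fin m → F2) + Pi.single b 1 = 0 := Ac_pv_self b
  unfold pv
  calc (Pi.single a 1 : Fin m → F2) + Pi.single c 1
      = Pi.single a 1 + (Pi.single b 1 + Pi.single b 1) + Pi.single c 1 := by rw [h, add_zero]
    _ = _ := by abel

private theorem Ac_walk {m : ℕ} {T : Set (Sym2 (Fin m))} {a b : Fin m}
    (w : (SimpleGraph.fromEdgeSet T).Walk a b) :
    (pv a b : Fin m → F2) ∈ span F2 (wv '' T) := by
  induction w with
  | nil =>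
    rw [Ac_pv_self]
    exact zero_mem _
  | @cons u v w h p ih =>
    rw [Ac_pv_trans u v w]
    refine add_mem (subset_span ⟨s(u, v), ?_, rfl⟩) ih
    exact ((SimpleGraph.fromEdgeSet_adj T).1 h).1

private theorem Ac_span {m : ℕ} {T : Set (Sym2 (Fin m))} (hT : ∀ x ∈ T, ¬ x.IsDiag) {a b : Fin m}
    (h : (pv a b : Fin m → F2) ∈ span F2 (wv '' T)) :
    (SimpleGraph.fromEdgeSet T).Reachable a b := by
  classical
  by_contra hn
  obtain ⟨φ, hφ⟩ : ∃ φ : (Fin m → F2) →ₗ[F2] F2,
      ∀ c, φ (Pi.single c 1) = if (SimpleGraph.fromEdgeSet T).Reachable a c then 1 else 0 := by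
    refine ⟨∑ u ∈ Finset.univ.filter (fun u => (SimpleGraph.fromEdgeSet T).Reachable a u),
      LinearMap.proj u, fun c => ?_⟩
    rw [LinearMap.sum_apply]
    by_cases hc : (SimpleGraph.fromEdgeSet T).Reachable a c
    · rw [if_pos hc, Finset.sum_eq_single c]
      · exact Pi.single_eq_same c 1
      · intro u _ hu
        exact Pi.single_eq_of_ne hu 1
      · intro h0
        exact absurd (Finset.mem_filter.2 ⟨Finset.mem_univ _, hc⟩) h0
    · rw [if_neg hc]
      refine Finset.sum_eq_zero fun u hu => ?_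
      refine Pi.single_eq_of_ne (fun h0 => hc ?_) 1
      rw [← h0]
      exact (Finset.mem_filter.1 hu).2
  have hz : span F2 (wv '' T) ≤ LinearMap.ker φ := by
    rw [span_le]
    rintro _ ⟨x, hx, rfl⟩
    induction x using Sym2.ind with
    | _ c e =>
      have hce : c ≠ e := fun h0 => hT _ hx (by rw [h0]; exact rfl)
      have hadj : (SimpleGraph.fromEdgeSet T).Adj c e := (SimpleGraph.fromEdgeSet_adj T).2 ⟨hx, hce⟩
      show φ (Pi.single c 1 + Pi.single e 1) = 0
      rw [map_add, hφ, hφ]
      by_cases hc : (SimpleGraph.fromEdgeSet T).Reachable a c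
      · rw [if_pos hc, if_pos (hc.trans hadj.reachable)]
        exact Ac_add
      · rw [if_neg hc, if_neg (fun h0 => hc (h0.trans hadj.symm.reachable)), add_zero]
  have h1 : φ (Pi.single a 1 + Pi.single b 1) = 0 := hz h
  rw [map_add, hφ, hφ, if_pos (SimpleGraph.Reachable.refl a), if_neg hn, add_zero] at h1
  exact one_ne_zero h1

theorem ac_iff {m : ℕ} (S : Set (Sym2 (Fin m))) (hS : ∀ x ∈ S, ¬ x.IsDiag) :
    (SimpleGraph.fromEdgeSet S).IsAcyclic ↔ LinearIndepOn F2 wv S := by
  rw [SimpleGraph.isAcyclic_iff_forall_isBridge, linearIndepOn_iff_notMem_span]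
  have hkey : ∀ e ∈ S, (SimpleGraph.fromEdgeSet S).IsBridge e ↔
      wv e ∉ span F2 (wv '' (S \ {e})) := by
    intro e
    induction e using Sym2.ind with
    | _ a b =>
      intro _
      rw [SimpleGraph.isBridge_iff, SimpleGraph.deleteEdges_fromEdgeSet]
      refine not_congr ⟨fun h => ?_, fun h => ?_⟩
      · obtain ⟨w⟩ := h
        exact Ac_walk w
      · exact Ac_span (fun x hx => hS x hx.1) h
  constructor
  · intro h e he
    refine (hkey e he).1 (h ?_)
    rw [SimpleGraph.edgeSet_fromEdgeSet]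
    exact ⟨he, fun h0 => hS e he h0⟩
  · intro h e he
    rw [SimpleGraph.edgeSet_fromEdgeSet] at he
    exact (hkey e he.1).2 (h e he.1)

end Pool.Agent.H.MP_60a1a2_co
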