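import Pool.Agent.H.MP_60a1a2_co.Lb.Def

/-!
# Simple minors of the cycle matroid are small

PROOF: `L = span (gv '' C)`. `u ~ v` iff `pv u v ∈ L`: an equivalence relation (`pv u u = 0`, `pv u w = pv u v + pv v w`, characteristic 2). Take
`I ⊆ P` such that `gv` is a basis of `span (gv '' (C ∪ P))` modulo `L` on `I`: `I.card ≤ d` and
`gv e ∈ span (gv '' I) + L` for all `e ∈ P` (`exists_linearIndependent..` in the quotient by `L`, dimension of the image of
`span (gv '' (C ∪ P))` in the quotient is `finrank - finrank ≤ d`). Let `Q` = the set of the classes of the ends of the edges in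
`I`: at most `2 d` classes. Claim: both ends of every `e ∈ P` have classes in `Q`: the functional `x ↦ ∑ w ~ u, x w` is zero on `gv f`,
`f ∈ C`, and on `gv f` for `f ∈ I` if the class of `u` is not in `Q`; but it is `1` at `gv e` if `u` is an end of `e` (the other end is not `~ u` by `h0`).
The map `e ↦` the unordered pair of the classes of the ends is injective on `P` (`h1`) with values the two-element subsets
of `Q`: `P.card ≤ Q.card.choose 2 ≤ (2 d).choose 2` (`Finset.card_powersetCard`).
-/

set_option autoImplicit false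

open Module Submodule

namespace Pool.Agent.H.MP_60a1a2_co

private theorem Gc_ex {N : ℕ} (C : Set (Ed N)) (P : Finset (Ed N)) :
    ∃ I : Finset (Ed N), I ⊆ P ∧ (∀ e ∈ P, gv e ∈ span F2 (gv '' (C ∪ (I : Set (Ed N))))) ∧
      finrank F2 (span F2 (gv '' C)) + I.card ≤
        finrank F2 (span F2 (gv '' (C ∪ (I : Set (Ed N))))) := by
  classical
  induction P using Finset.induction_on with
  | empty =>
    refine ⟨∅, Finset.Subset.refl _, fun e he => absurd he (Finset.notMem_empty e), ?_⟩
    rw [Finset.coe_empty, Set.union_empty, Finset.card_empty, add_zero]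
  | insert e P he ih =>
    obtain ⟨I, hIP, hsp, hfr⟩ := ih
    by_cases hin : gv e ∈ span F2 (gv '' (C ∪ (I : Set (Ed N))))
    · refine ⟨I, hIP.trans (Finset.subset_insert _ _), ?_, hfr⟩
      intro f hf
      rcases Finset.mem_insert.1 hf with rfl | hf
      · exact hin
      · exact hsp f hf
    · have hsub : (I : Set (Ed N)) ⊆ ((insert e I : Finset (Ed N)) : Set (Ed N)) := by
        intro x hx
        exact Finset.mem_coe.2 (Finset.mem_insert_of_mem hx)
      have hmono : span F2 (gv '' (C ∪ (I : Set (Ed N)))) ≤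
          span F2 (gv '' (C ∪ ((insert e I : Finset (Ed N)) : Set (Ed N)))) :=
        span_mono (Set.image_mono (Set.union_subset_union_right _ hsub))
      have hmem : gv e ∈ span F2 (gv '' (C ∪ ((insert e I : Finset (Ed N)) : Set (Ed N)))) :=
        subset_span ⟨e, Or.inr (by simp), rfl⟩
      refine ⟨insert e I, Finset.insert_subset_insert _ hIP, ?_, ?_⟩
      · intro f hf
        rcases Finset.mem_insert.1 hf with rfl | hf
        · exact hmem
        · exact hmono (hsp f hf)
      · have hlt := Submodule.finrank_lt_finrank_of_lt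
          (lt_of_le_of_ne hmono (fun h => hin (h ▸ hmem)))
        have := Finset.card_insert_le e I
        omega

private theorem Gc_two (x : F2) : x + x = 0 := CharTwo.add_self_eq_zero x

private theorem Gc_self {N : ℕ} (u : Fin N) : pv u u = 0 := by
  funext i
  exact Gc_two _

private theorem Gc_comm {N : ℕ} (u v : Fin N) : pv u v = pv v u := by
  unfold pv
  exact add_comm _ _

private theorem Gc_trans {N : ℕ} (u v w : Fin N) : pv u v + pv v w = pv u w := by
  funext i
  have h := Gc_two ((Pi.single v 1 : Fin N → F2) i)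
  show (Pi.single u 1 : Fin N → F2) i + (Pi.single v 1 : Fin N → F2) i +
    ((Pi.single v 1 : Fin N → F2) i + (Pi.single w 1 : Fin N → F2) i) =
    (Pi.single u 1 : Fin N → F2) i + (Pi.single w 1 : Fin N → F2) i
  linear_combination h

/-- The classes of the vertices. -/
private def Gc_s {N : ℕ} (C : Set (Ed N)) : Setoid (Fin N) where
  r u v := pv u v ∈ span F2 (gv '' C)
  iseqv := {
    refl := fun u => by
      show pv u u ∈ _
      rw [Gc_self]
      exact zero_mem _
    symm := fun {u v} h => by
      show pv v u ∈ _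
      rw [Gc_comm]
      exact h
    trans := fun {u v w} h h' => by
      show pv u w ∈ _
      rw [← Gc_trans u v w]
      exact add_mem h h' }

private theorem Gc_chi {N : ℕ} (p : Fin N → Prop) [DecidablePred p] :
    ∃ χ : (Fin N → F2) →ₗ[F2] F2, ∀ u v, χ (pv u v) = (if p u then 1 else 0) +
      (if p v then 1 else 0) := by
  refine ⟨∑ w ∈ Finset.univ.filter p, LinearMap.proj w, fun u v => ?_⟩
  rw [LinearMap.sum_apply]
  simp only [LinearMap.proj_apply, pv, Pi.add_apply, Finset.sum_add_distrib, Pi.single_apply]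
  simp [Finset.sum_ite_eq']

theorem cnt_g {N d : ℕ} (C : Set (Ed N)) (P : Finset (Ed N))
    (h0 : ∀ e ∈ P, gv e ∉ span F2 (gv '' C))
    (h1 : ∀ e ∈ P, ∀ f ∈ P, e ≠ f → gv e + gv f ∉ span F2 (gv '' C))
    (hd : finrank F2 (span F2 (gv '' (C ∪ (P : Set (Ed N))))) ≤
      finrank F2 (span F2 (gv '' C)) + d) :
    P.card ≤ (2 * d).choose 2 := by
  classical
  obtain ⟨I, hIP, hsp, hfr⟩ := Gc_ex C P
  have hId : I.card ≤ d := by
    have hle : finrank F2 (span F2 (gv '' (C ∪ (I : Set (Ed N))))) ≤
        finrank F2 (span F2 (gv '' (C ∪ (P : Set (Ed N))))) :=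
      Submodule.finrank_mono (span_mono (Set.image_mono
        (Set.union_subset_union_right _ (Finset.coe_subset.2 hIP))))
    omega
  let _ : Setoid (Fin N) := Gc_s C
  let cl : Fin N → Quotient (Gc_s C) := fun u => Quotient.mk _ u
  have hcl : ∀ u v, cl u = cl v ↔ pv u v ∈ span F2 (gv '' C) := fun u v => Quotient.eq
  let S : Finset (Quotient (Gc_s C)) := I.image (fun e => cl e.1.1) ∪ I.image (fun e => cl e.1.2)
  have hScard : S.card ≤ 2 * d := by
    have h3 := Finset.card_union_le (I.image (fun e => cl e.1.1)) (I.image (fun e => cl e.1.2))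
    have h4 := Finset.card_image_le (s := I) (f := fun e => cl e.1.1)
    have h5 := Finset.card_image_le (s := I) (f := fun e => cl e.1.2)
    show (I.image (fun e => cl e.1.1) ∪ I.image (fun e => cl e.1.2)).card ≤ 2 * d
    omega
  have hne : ∀ e ∈ P, cl e.1.1 ≠ cl e.1.2 := by
    intro e he h
    exact h0 e he ((hcl _ _).1 h)
  have key : ∀ e ∈ P, ∀ q : Quotient (Gc_s C), (cl e.1.1 = q ∨ cl e.1.2 = q) → q ∈ S := by
    intro e he q hq
    by_contra hqS
    obtain ⟨χ, hχ⟩ := Gc_chi (fun w : Fin N => cl w = q)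
    have hker : span F2 (gv '' (C ∪ (I : Set (Ed N)))) ≤ LinearMap.ker χ := by
      rw [span_le]
      rintro _ ⟨f, hf, rfl⟩
      show χ (pv f.1.1 f.1.2) = 0
      rw [hχ]
      rcases hf with hf | hf
      · have hff : cl f.1.1 = cl f.1.2 := (hcl _ _).2 (subset_span ⟨f, hf, rfl⟩)
        rw [hff]
        exact Gc_two _
      · have hf' : f ∈ I := hf
        have h3 : cl f.1.1 ≠ q := fun h => hqS (Finset.mem_union_left _ (by
          rw [← h]
          exact Finset.mem_image_of_mem (fun e => cl e.1.1) hf'))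
        have h4 : cl f.1.2 ≠ q := fun h => hqS (Finset.mem_union_right _ (by
          rw [← h]
          exact Finset.mem_image_of_mem (fun e => cl e.1.2) hf'))
        rw [if_neg h3, if_neg h4, add_zero]
    have hz : χ (pv e.1.1 e.1.2) = 0 := hker (hsp e he)
    rw [hχ] at hz
    rcases hq with hq | hq
    · have h4 : cl e.1.2 ≠ q := fun h => hne e he (hq.trans h.symm)
      rw [if_pos hq, if_neg h4, add_zero] at hz
      exact one_ne_zero hz
    · have h4 : cl e.1.1 ≠ q := fun h => hne e he (h.trans hq.symm)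
      rw [if_pos hq, if_neg h4, zero_add] at hz
      exact one_ne_zero hz
  have hmaps : ∀ e ∈ P, s(cl e.1.1, cl e.1.2) ∈ S.offDiag.image (fun x => s(x.1, x.2)) := by
    intro e he
    refine Finset.mem_image.2 ⟨(cl e.1.1, cl e.1.2), ?_, rfl⟩
    rw [Finset.mem_offDiag]
    exact ⟨key e he _ (Or.inl rfl), key e he _ (Or.inr rfl), hne e he⟩
  have hinj : Set.InjOn (fun e : Ed N => s(cl e.1.1, cl e.1.2)) (P : Set (Ed N)) := by
    intro e he f hf hef
    by_contra hne'
    apply h1 e he f hf hne'
    show pv e.1.1 e.1.2 + pv f.1.1 f.1.2 ∈ _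
    rcases Sym2.eq_iff.1 hef with ⟨ha, hb⟩ | ⟨ha, hb⟩
    · have h3 := add_mem ((hcl _ _).1 ha) ((hcl _ _).1 hb)
      have h4 : pv e.1.1 f.1.1 + pv e.1.2 f.1.2 = pv e.1.1 e.1.2 + pv f.1.1 f.1.2 := by
        unfold pv
        abel
      rwa [h4] at h3
    · have h3 := add_mem ((hcl _ _).1 ha) ((hcl _ _).1 hb)
      have h4 : pv e.1.1 f.1.2 + pv e.1.2 f.1.1 = pv e.1.1 e.1.2 + pv f.1.1 f.1.2 := by
        unfold pv
        abel
      rwa [h4] at h3
  have h5 : P.card ≤ (S.offDiag.image (fun x => s(x.1, x.2))).card :=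
    Finset.card_le_card_of_injOn _ hmaps hinj
  have h6 : (S.offDiag.image (fun x => s(x.1, x.2))).card = S.card.choose 2 :=
    Sym2.card_image_offDiag S
  rw [h6] at h5
  exact h5.trans (Nat.choose_le_choose 2 hScard)

end Pool.Agent.H.MP_60a1a2_co
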