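import Pool.Agent.H.MP_60a1a2_co.Lb.Tm

/-!
# Ranks of the two parts

PROOF: subspaces of `V = Bs N × (Fin N → F2)`: `A = span (vec '' range inl)`, `B = span (vec '' range inr)`, `A ⊓ B` has dimension at most `n`: an element
of `A` is `tmap x`, `x` in the span of `gv`, with second component `x j` at `j > n`; if it is in `B` then the second component is zero,
so `x j = 0` for `j > n` and `tmap x` is in the span of the `tv j`, `1 ≤ j ≤ n` (`tv 0 = 0`): dimension `≤ n`. `rk_inl`: let
`X = span (vec '' (inl '' (C₁ ∪ P₁)))`, `Y = span (vec '' (inr '' C₂))`, `X₀ = span (vec '' (inl '' C₁))`. Then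
`dim (X + Y) ≤ dim (X₀ + Y) + r` (hypothesis: the whole span has dimension at most `dim (X₀ + Y) + r`), `dim (X + Y) = dim X + dim Y - dim (X ⊓ Y)`, `dim (X ⊓ Y) ≤ n`,
`dim (X₀ + Y) ≤ dim X₀ + dim Y`; so `dim X ≤ dim X₀ + r + n`; and `dim X = dim span (gv '' (C₁ ∪ P₁))` as `tmap` is injective on the span of `gv`.
`rk_inr`: the same with the sides exchanged (`e ↦ (cv e, 0)` is injective).
-/

set_option autoImplicit false

open Module Submodule

namespace Pool.Agent.H.MP_60a1a2_co

private theorem Rki_key {V : Type} [AddCommGroup V] [Module F2 V] [Module.Finite F2 V]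
    (X₀ X Y Y' : Submodule F2 V) {n r : ℕ} (hY : Y ≤ Y') (hc : finrank F2 ↥(X ⊓ Y) ≤ n)
    (h : finrank F2 ↥(X ⊔ Y') ≤ finrank F2 ↥(X₀ ⊔ Y) + r) :
    finrank F2 X ≤ finrank F2 X₀ + (r + n) := by
  have h1 := Submodule.finrank_sup_add_finrank_inf_eq X Y
  have h2 := Submodule.finrank_add_le_finrank_add_finrank X₀ Y
  have h3 : finrank F2 ↥(X ⊔ Y) ≤ finrank F2 ↥(X ⊔ Y') :=
    Submodule.finrank_mono (sup_le_sup_left hY X)
  omega

private theorem Rki_inl (n N : ℕ) (S : Set (Ed N)) :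
    span F2 (vec n N '' (Sum.inl '' S)) = (span F2 (gv '' S)).map (tmap n N) := by
  rw [Submodule.map_span, Set.image_image, Set.image_image]
  congr 1
  refine Set.image_congr fun e _ => ?_
  show tv n N e.1.1 + tv n N e.1.2 = tmap n N (pv e.1.1 e.1.2)
  rw [tmap_pv]

private theorem Rki_inr (n N : ℕ) (S : Set (Ed N)) :
    span F2 (vec n N '' (Sum.inr '' S)) =
      (span F2 (cv '' S)).map (LinearMap.inl F2 (Bs N) (Fin N → F2)) := by
  rw [Submodule.map_span, Set.image_image, Set.image_image]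
  rfl

private theorem Rki_sup (n N : ℕ) (S T : Set (Ed N)) :
    span F2 (vec n N '' (Sum.inl '' S ∪ Sum.inr '' T)) =
      (span F2 (gv '' S)).map (tmap n N) ⊔
        (span F2 (cv '' T)).map (LinearMap.inl F2 (Bs N) (Fin N → F2)) := by
  rw [Set.image_union, Submodule.span_union, Rki_inl, Rki_inr]

private theorem Rki_snd (n N : ℕ) (x : Fin N → F2) (j : Fin N) (hj : n < j.1) :
    (tmap n N x).2 j = x j := by
  have h1 : tmap n N x = ∑ i, x i • tv n N i := Fintype.linearCombination_apply F2 _ _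
  rw [h1, Prod.snd_sum, Finset.sum_apply, Finset.sum_eq_single j]
  · have : tv n N j = (0, Pi.single j 1) := by
      unfold tv; rw [if_neg (by omega)]
    rw [this]
    simp
  · intro i _ hij
    unfold tv
    split_ifs with h
    · simp
    · simp [Pi.single_apply, hij.symm]
  · intro h; exact absurd (Finset.mem_univ j) h

private theorem Rki_cap {n N : ℕ} (hN : n + 2 ≤ N) (S : Submodule F2 (Fin N → F2))
    (T : Submodule F2 (Bs N)) :
    finrank F2 ↥(S.map (tmap n N) ⊓ T.map (LinearMap.inl F2 (Bs N) (Fin N → F2))) ≤ n := by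
  have hle : S.map (tmap n N) ⊓ T.map (LinearMap.inl F2 (Bs N) (Fin N → F2)) ≤
      span F2 (Set.range fun i : Fin n => tv n N ⟨i.1 + 1, by have := i.2; omega⟩) := by
    rintro z ⟨⟨x, -, hx⟩, ⟨b, -, hb⟩⟩
    have hz : z.2 = 0 := by rw [← hb]; rfl
    have h0 : ∀ j : Fin N, n < j.1 → x j = 0 := fun j hj => by
      rw [← Rki_snd n N x j hj, hx, hz]; rfl
    have h1 : tmap n N x = ∑ i, x i • tv n N i := Fintype.linearCombination_apply F2 _ _
    rw [← hx, h1]
    refine Submodule.sum_mem _ fun j _ => ?_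
    by_cases hj : n < j.1
    · rw [h0 j hj, zero_smul]; exact Submodule.zero_mem _
    · refine Submodule.smul_mem _ _ ?_
      by_cases hj0 : j.1 = 0
      · have : tv n N j = 0 := by
          unfold tv; rw [if_pos (by omega), hj0]; rfl
        rw [this]; exact Submodule.zero_mem _
      · refine Submodule.subset_span ⟨⟨j.1 - 1, by omega⟩, ?_⟩
        show tv n N ⟨j.1 - 1 + 1, _⟩ = tv n N j
        congr 1
        exact Fin.ext (by show j.1 - 1 + 1 = j.1; omega)
  refine (Submodule.finrank_mono hle).trans ?_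
  have := finrank_range_le_card (R := F2) (fun i : Fin n => tv n N ⟨i.1 + 1, by have := i.2; omega⟩)
  rw [Fintype.card_fin] at this
  exact this

private theorem Rki_fin {V W : Type} [AddCommGroup V] [Module F2 V] [AddCommGroup W] [Module F2 W]
    (f : V →ₗ[F2] W) (S : Submodule F2 V) (hf : ∀ x ∈ S, f x = 0 → x = 0) :
    finrank F2 (S.map f) = finrank F2 S := by
  have h1 : Function.Injective (f.domRestrict S) := by
    rw [← LinearMap.ker_eq_bot, LinearMap.ker_eq_bot']
    intro x hx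
    exact Subtype.ext (hf x.1 x.2 hx)
  have h2 := LinearMap.finrank_range_of_inj h1
  rwa [LinearMap.range_domRestrict] at h2

private theorem Rki_finl {n N : ℕ} (hN : n + 2 ≤ N) (S : Set (Ed N)) :
    finrank F2 ((span F2 (gv '' S)).map (tmap n N)) = finrank F2 (span F2 (gv '' S)) :=
  Rki_fin _ _ fun x hx h => tmap_inj hN x (Submodule.span_mono (Set.image_subset_range _ _) hx) h

private theorem Rki_finr (N : ℕ) (T : Submodule F2 (Bs N)) :
    finrank F2 (T.map (LinearMap.inl F2 (Bs N) (Fin N → F2))) = finrank F2 T :=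
  Rki_fin _ _ fun x _ h => LinearMap.inl_injective (by rw [h, map_zero])

theorem rk_inl {n N r : ℕ} (hN : n + 2 ≤ N) (C₁ P₁ C₂ P₂ : Set (Ed N))
    (h : finrank F2 (span F2 (vec n N '' (Sum.inl '' (C₁ ∪ P₁) ∪ Sum.inr '' (C₂ ∪ P₂)))) ≤
      finrank F2 (span F2 (vec n N '' (Sum.inl '' C₁ ∪ Sum.inr '' C₂))) + r) :
    finrank F2 (span F2 (gv '' (C₁ ∪ P₁))) ≤ finrank F2 (span F2 (gv '' C₁)) + (r + n) := by
  rw [Rki_sup, Rki_sup] at h
  rw [← Rki_finl hN, ← Rki_finl hN]
  refine Rki_key _ _ _ _ ?_ (Rki_cap hN _ _) h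
  exact Submodule.map_mono (Submodule.span_mono (Set.image_mono Set.subset_union_left))

theorem rk_inr {n N r : ℕ} (hN : n + 2 ≤ N) (C₁ P₁ C₂ P₂ : Set (Ed N))
    (h : finrank F2 (span F2 (vec n N '' (Sum.inl '' (C₁ ∪ P₁) ∪ Sum.inr '' (C₂ ∪ P₂)))) ≤
      finrank F2 (span F2 (vec n N '' (Sum.inl '' C₁ ∪ Sum.inr '' C₂))) + r) :
    finrank F2 (span F2 (cv '' (C₂ ∪ P₂))) ≤ finrank F2 (span F2 (cv '' C₂)) + (r + n) := by
  rw [Rki_sup, Rki_sup, sup_comm, sup_comm ((span F2 (gv '' C₁)).map (tmap n N))] at h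
  rw [← Rki_finr N, ← Rki_finr N]
  refine Rki_key _ _ _ _ ?_ (by rw [inf_comm]; exact Rki_cap hN _ _) h
  exact Submodule.map_mono (Submodule.span_mono (Set.image_mono Set.subset_union_left))

end Pool.Agent.H.MP_60a1a2_co
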