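import Pool.Agent.H.MP_60a1a2_co.Lb.LmC
import Pool.Agent.H.MP_60a1a2_co.Lb.Rki
import Pool.Agent.H.MP_60a1a2_co.Lb.Gc
import Pool.Agent.H.MP_60a1a2_co.Lb.Cc

/-!
# Simple minors of the glued matroid are small

PROOF: `lm_minor` gives `C`; `C₁ = inl ⁻¹' C`, `C₂ = inr ⁻¹' C`, `P₁ = inl ⁻¹' Nm.E`, `P₂ = inr ⁻¹' Nm.E`. `L = span (vec '' C)`. The image of
`span (vec '' Nm.E)` modulo `L` has dimension at most `r` (a maximal independent subset of `Nm.E`, `hr`, `Nm.Indep I → I.encard ≤ eRank`), so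
`finrank (span (vec '' (C ∪ Nm.E))) ≤ finrank L + r`. `rk_inl`, `rk_inr`. For `e ∈ P₁`: `{inl e}` is independent (`hs` with `x = y`), so `vec (inl e) ∉ L`, so
`gv e ∉ span (gv '' C₁)` (apply `tmap`; `vec (inl e) = tmap (gv e)`); for `e ≠ f` in `P₁` the pair is independent: `vec (inl e) + vec (inl f) ∉ L`, so
`gv e + gv f ∉ span (gv '' C₁)`. `cnt_g`: `P₁.card ≤ (2 (r + n)).choose 2 = (r + n) (2 (r + n) - 1)`. The same with `cv`: `cnt_c`: `P₂.card ≤ 3 (r + n)`.
-/

set_option autoImplicit false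

open Matroid Module Submodule

namespace Pool.Agent.H.MP_60a1a2_co

private theorem Cnt_one {E W : Type} [AddCommGroup W] [Module F2 W] {v : E → W}
    {L : Submodule F2 W} {x : E} (h : LinearIndepOn F2 (fun e => L.mkQ (v e)) {x}) :
    v x ∉ L := by
  intro hx
  have h1 := h.ne_zero (Set.mem_singleton x)
  exact h1 ((Submodule.Quotient.mk_eq_zero L).2 hx)

private theorem Cnt_two {E W : Type} [AddCommGroup W] [Module F2 W] {v : E → W}
    {L : Submodule F2 W} {x y : E} (hxy : x ≠ y)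
    (h : LinearIndepOn F2 (fun e => L.mkQ (v e)) {x, y}) : v x + v y ∉ L := by
  intro hx
  have h0 := (LinearIndepOn.pair_iff (fun e => L.mkQ (v e)) hxy).1 h
  have h1 := h0 1 1 (by
    rw [one_smul, one_smul, ← map_add]
    exact (Submodule.Quotient.mk_eq_zero L).2 hx)
  exact one_ne_zero h1.1

private theorem Cnt_rank {E W : Type} [Finite E] [AddCommGroup W] [Module F2 W]
    [Module.Finite F2 W] (v : E → W) (C : Set E) {Nm : Matroid E} (r : ℕ)
    (hind : ∀ I ⊆ Nm.E, Nm.Indep I ↔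
      LinearIndepOn F2 (fun e => (span F2 (v '' C)).mkQ (v e)) I) (hr : Nm.eRank ≤ (r : ℕ)) :
    finrank F2 (span F2 (v '' (C ∪ Nm.E))) ≤ finrank F2 (span F2 (v '' C)) + r := by
  set L := span F2 (v '' C) with hL
  set S := span F2 (v '' (C ∪ Nm.E)) with hS
  obtain ⟨B, hB⟩ := Nm.exists_isBase
  have hBi := (hind B hB.subset_ground).1 hB.indep
  have hBc : B.ncard ≤ r := by
    have h1 : B.encard = Nm.eRank := hB.encard_eq_eRank
    have h2 : ((B.ncard : ℕ) : ℕ∞) ≤ (r : ℕ) := by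
      rw [(Set.toFinite B).cast_ncard_eq, h1]
      exact hr
    exact_mod_cast h2
  have hmap : S.map L.mkQ ≤ span F2 ((fun e => L.mkQ (v e)) '' B) := by
    rw [hS, Submodule.map_span_le]
    rintro _ ⟨e, he, rfl⟩
    rcases he with he | he
    · have h1 : L.mkQ (v e) = 0 :=
        (Submodule.Quotient.mk_eq_zero L).2 (subset_span ⟨e, he, rfl⟩)
      rw [h1]
      exact zero_mem _
    · by_cases heB : e ∈ B
      · exact subset_span ⟨e, heB, rfl⟩
      · by_contra hn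
        have h1 : LinearIndepOn F2 (fun e => L.mkQ (v e)) (insert e B) :=
          (linearIndepOn_insert heB).2 ⟨hBi, hn⟩
        have h2 : Nm.Indep (insert e B) :=
          (hind _ (Set.insert_subset he hB.subset_ground)).2 h1
        have h3 := hB.eq_of_subset_indep h2 (Set.subset_insert _ _)
        exact heB (h3 ▸ Set.mem_insert e B)
  have hf1 : finrank F2 (S.map L.mkQ) ≤ r := by
    refine (Submodule.finrank_mono hmap).trans ?_
    rw [Lb_finrank hBi]
    exact hBc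
  have hker := LinearMap.finrank_range_add_finrank_ker (L.mkQ ∘ₗ S.subtype)
  have hrange : LinearMap.range (L.mkQ ∘ₗ S.subtype) = S.map L.mkQ := by
    rw [LinearMap.range_comp, Submodule.range_subtype]
  have hk : finrank F2 (LinearMap.ker (L.mkQ ∘ₗ S.subtype)) ≤ finrank F2 L := by
    rw [← Submodule.finrank_map_subtype_eq S (LinearMap.ker (L.mkQ ∘ₗ S.subtype))]
    apply Submodule.finrank_mono
    rintro _ ⟨x, hx, rfl⟩
    have h1 : L.mkQ (x : W) = 0 := hx
    exact (Submodule.Quotient.mk_eq_zero L).1 h1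
  rw [hrange] at hker
  omega

private theorem Cnt_vec (n N : ℕ) (e : Ed N) : vec n N (Sum.inl e) = tmap n N (gv e) := by
  show tv n N e.1.1 + tv n N e.1.2 = tmap n N (Pi.single e.1.1 1 + Pi.single e.1.2 1)
  unfold tmap
  rw [map_add, Fintype.linearCombination_apply_single, Fintype.linearCombination_apply_single,
    one_smul, one_smul]

private theorem Cnt_inl {n N : ℕ} {C : Set (Ed N ⊕ Ed N)} {x : Fin N → F2}
    (h : x ∈ span F2 (gv '' (Sum.inl ⁻¹' C))) :
    tmap n N x ∈ span F2 (vec n N '' C) := by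
  have h1 : span F2 (gv '' (Sum.inl ⁻¹' C)) ≤ (span F2 (vec n N '' C)).comap (tmap n N) := by
    rw [span_le]
    rintro _ ⟨e, he, rfl⟩
    show tmap n N (gv e) ∈ span F2 (vec n N '' C)
    rw [← Cnt_vec]
    exact subset_span ⟨Sum.inl e, he, rfl⟩
  exact h1 h

private theorem Cnt_inr {n N : ℕ} {C : Set (Ed N ⊕ Ed N)} {x : Bs N}
    (h : x ∈ span F2 (cv '' (Sum.inr ⁻¹' C))) :
    ((x, 0) : Bs N × (Fin N → F2)) ∈ span F2 (vec n N '' C) := by
  have h1 : span F2 (cv '' (Sum.inr ⁻¹' C)) ≤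
      (span F2 (vec n N '' C)).comap (LinearMap.inl F2 (Bs N) (Fin N → F2)) := by
    rw [span_le]
    rintro _ ⟨e, he, rfl⟩
    show ((cv e, 0) : Bs N × (Fin N → F2)) ∈ span F2 (vec n N '' C)
    exact subset_span ⟨Sum.inr e, he, rfl⟩
  exact h1 h

private theorem Cnt_split {α β : Type} (C : Set (α ⊕ β)) :
    Sum.inl '' (Sum.inl ⁻¹' C) ∪ Sum.inr '' (Sum.inr ⁻¹' C) = C := by
  ext x
  rcases x with x | x
  · simp
  · simp

theorem cnt {n N r : ℕ} (hN : n + 2 ≤ N) {Nm : Matroid (Ed N ⊕ Ed N)} (h : Nm ≤m gm n N)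
    (hs : ∀ x ∈ Nm.E, ∀ y ∈ Nm.E, Nm.Indep {x, y}) (hr : Nm.eRank ≤ (r : ℕ)) :
    Nm.E.ncard ≤ 2 * (r + n) * (r + n + 1) := by
  classical
  obtain ⟨C, _, hind⟩ := lm_minor (vec n N) h
  have hrk := Cnt_rank (vec n N) C r hind hr
  have hone : ∀ x ∈ Nm.E, vec n N x ∉ span F2 (vec n N '' C) := by
    intro x hx
    have h1 := hs x hx x hx
    rw [Set.pair_eq_singleton] at h1
    exact Cnt_one ((hind _ (Set.singleton_subset_iff.2 hx)).1 h1)
  have htwo : ∀ x ∈ Nm.E, ∀ y ∈ Nm.E, x ≠ y →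
      vec n N x + vec n N y ∉ span F2 (vec n N '' C) := by
    intro x hx y hy hxy
    exact Cnt_two hxy ((hind _ (Set.pair_subset hx hy)).1 (hs x hx y hy))
  have hrk' : finrank F2 (span F2 (vec n N '' (Sum.inl '' ((Sum.inl ⁻¹' C) ∪ (Sum.inl ⁻¹' Nm.E)) ∪
      Sum.inr '' ((Sum.inr ⁻¹' C) ∪ (Sum.inr ⁻¹' Nm.E))))) ≤
      finrank F2 (span F2 (vec n N '' (Sum.inl '' (Sum.inl ⁻¹' C) ∪
        Sum.inr '' (Sum.inr ⁻¹' C)))) + r := by
    rw [← Set.preimage_union, ← Set.preimage_union, Cnt_split, Cnt_split]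
    exact hrk
  have h1 := rk_inl hN _ _ _ _ hrk'
  have h2 := rk_inr hN _ _ _ _ hrk'
  have hP1 : ((Set.toFinite (Sum.inl ⁻¹' Nm.E : Set (Ed N))).toFinset : Set (Ed N)) =
      Sum.inl ⁻¹' Nm.E := Set.Finite.coe_toFinset _
  have hP2 : ((Set.toFinite (Sum.inr ⁻¹' Nm.E : Set (Ed N))).toFinset : Set (Ed N)) =
      Sum.inr ⁻¹' Nm.E := Set.Finite.coe_toFinset _
  have c1 := cnt_g (d := r + n) (Sum.inl ⁻¹' C)
    ((Set.toFinite (Sum.inl ⁻¹' Nm.E : Set (Ed N))).toFinset)
    (by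
      intro e he hc
      rw [Set.Finite.mem_toFinset] at he
      have h3 := Cnt_inl (n := n) hc
      rw [← Cnt_vec] at h3
      exact hone _ he h3)
    (by
      intro e he f hf hef hc
      rw [Set.Finite.mem_toFinset] at he hf
      have h3 := Cnt_inl (n := n) hc
      rw [map_add, ← Cnt_vec, ← Cnt_vec] at h3
      exact htwo _ he _ hf (fun h4 => hef (Sum.inl_injective h4)) h3)
    (by
      rw [hP1]
      exact h1)
  have c2 := cnt_c (d := r + n) (Sum.inr ⁻¹' C)
    ((Set.toFinite (Sum.inr ⁻¹' Nm.E : Set (Ed N))).toFinset)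
    (by
      intro e he hc
      rw [Set.Finite.mem_toFinset] at he
      exact hone _ he (Cnt_inr (n := n) hc))
    (by
      intro e he f hf hef hc
      rw [Set.Finite.mem_toFinset] at he hf
      have h3 := Cnt_inr (n := n) hc
      refine htwo _ he _ hf (fun h4 => hef (Sum.inr_injective h4)) ?_
      have h5 : vec n N (Sum.inr e) + vec n N (Sum.inr f) =
          ((cv e + cv f, 0) : Bs N × (Fin N → F2)) := by
        show ((cv e, 0) : Bs N × (Fin N → F2)) + (cv f, 0) = _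
        rw [Prod.mk_add_mk, add_zero]
      rw [h5]
      exact h3)
    (by
      rw [hP2]
      exact h2)
  rw [← Set.ncard_coe_finset, hP1] at c1
  rw [← Set.ncard_coe_finset, hP2] at c2
  have h3 : Nm.E.ncard ≤ (Sum.inl ⁻¹' Nm.E : Set (Ed N)).ncard +
      (Sum.inr ⁻¹' Nm.E : Set (Ed N)).ncard := by
    calc Nm.E.ncard = (Sum.inl '' (Sum.inl ⁻¹' Nm.E) ∪ Sum.inr '' (Sum.inr ⁻¹' Nm.E)).ncard := by
          rw [Cnt_split]
      _ ≤ (Sum.inl '' (Sum.inl ⁻¹' Nm.E)).ncard + (Sum.inr '' (Sum.inr ⁻¹' Nm.E)).ncard :=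
          Set.ncard_union_le _ _
      _ = _ := by
          rw [Set.ncard_image_of_injective _ Sum.inl_injective,
            Set.ncard_image_of_injective _ Sum.inr_injective]
  have h4 : (2 * (r + n)).choose 2 + 3 * (r + n) = 2 * (r + n) * (r + n + 1) := by
    rw [Nat.choose_two_right]
    generalize r + n = d
    rcases d with _ | d
    · rfl
    · have h5 : 2 * (d + 1) * (2 * (d + 1) - 1) / 2 = (d + 1) * (2 * d + 1) := by
        rw [mul_assoc, Nat.mul_div_cancel_left _ (by norm_num)]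
        congr 1
      rw [h5]
      ring
  omega

end Pool.Agent.H.MP_60a1a2_co
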