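import Pool.Agent.H.MP_60a1a2_co.Lb.Def

/-!
# The path in the dual of the cycle matroid

PROOF: `cp_indep`: let `∑ i < n, a i • cp N i = 0`, i.e. `∑ a i • Pi.single (pe i) 1 = cob N s` for some `s : Fin N → F2`
(`Submodule.Quotient.mk_eq_zero`, `LinearMap.mem_range`). The vertex `N - 1` is on no edge `pe i` (`i < n`, `n + 2 ≤ N`), so
`cob N s (u, N - 1) = 0` for all `u < N - 1` (coordinate of the edge `(u, N - 1)`): `s u = s (N - 1)`, so `s` is constant,
`cob N s = 0` (characteristic 2), and `a i = 0` (coordinate `pe i`; the edges `pe i` are different).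
-/

set_option autoImplicit false

open Module Submodule

namespace Pool.Agent.H.MP_60a1a2_co

theorem cp_indep {n N : ℕ} (hN : n + 2 ≤ N) :
    LinearIndependent F2 (fun i : Fin n => cp N i.1) := by
  classical
  rw [Fintype.linearIndependent_iff]
  intro g hg i₀
  have hlt : ∀ i : Fin n, i.1 + 1 < N := fun i => by
    have := i.2
    omega
  have h1 : (LinearMap.range (cob N)).mkQ
      (∑ i : Fin n, g i • Pi.single (pe i.1 (hlt i)) (1 : F2)) = 0 := by
    rw [← hg, map_sum]
    refine Finset.sum_congr rfl fun i _ => ?_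
    rw [map_smul]
    unfold cp cv
    rw [dif_pos (hlt i)]
    rfl
  rw [Submodule.mkQ_apply, Submodule.Quotient.mk_eq_zero] at h1
  obtain ⟨s, hs⟩ := h1
  have ht : ∀ e : Ed N, s e.1.1 + s e.1.2 =
      ∑ i : Fin n, g i * (if e = pe i.1 (hlt i) then 1 else 0) := by
    intro e
    have h2 := congrFun hs e
    rw [Finset.sum_apply] at h2
    refine Eq.trans h2 (Finset.sum_congr rfl fun i _ => ?_)
    rw [Pi.smul_apply, smul_eq_mul, Pi.single_apply]
  have hlast : N - 1 < N := by omega
  have hc : ∀ u : Fin N, s u = s ⟨N - 1, hlast⟩ := by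
    intro u
    by_cases hu : u.1 < N - 1
    · have h2 := ht ⟨(u, ⟨N - 1, hlast⟩), hu⟩
      rw [Finset.sum_eq_zero] at h2
      · exact CharTwo.add_eq_zero.1 h2
      · intro i _
        rw [if_neg, mul_zero]
        intro he
        have h3 : N - 1 = i.1 + 1 := congrArg (fun e : Ed N => e.1.2.1) he
        have := i.2
        omega
    · have h2 : u = ⟨N - 1, hlast⟩ := by
        apply Fin.ext
        have := u.2
        show u.1 = N - 1
        omega
      rw [h2]
  have h4 := ht (pe i₀.1 (hlt i₀))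
  rw [hc (pe i₀.1 (hlt i₀)).1.1, hc (pe i₀.1 (hlt i₀)).1.2, CharTwo.add_self_eq_zero,
    Finset.sum_eq_single i₀] at h4
  · rw [if_pos rfl, mul_one] at h4
    exact h4.symm
  · intro i _ hi
    rw [if_neg, mul_zero]
    intro he
    have h3 : i₀.1 = i.1 := congrArg (fun e : Ed N => e.1.1.1) he
    exact hi (Fin.ext h3.symm)
  · intro h
    exact absurd (Finset.mem_univ _) h

end Pool.Agent.H.MP_60a1a2_co
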