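import Pool.Agent.H.MP_60a1a2_co.BrDefs

/-!
# Lower bound for Q1: definitions

`HasPGMinorF` is used in the hand-in, the others are auxiliary. `lm v` = the matroid of a finite family
of vectors over `ZMod 2`. `Ed N` = the edges of `K_N`. `gv` = the vectors of the cycle matroid, `cv` =
the vectors of its dual. `gm n N` = the cycle matroid (`Sum.inl`) and its dual (`Sum.inr`) glued along the
path `0, 1, ..., n`: the vectors of the edges `{i, i+1}`, `i < n`, are the same on both sides.
-/

set_option autoImplicit false

namespace Pool.Agent.H.MP_60a1a2_co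

/-- `M` has a `PG(k,q)`-minor, `q` the number of elements of the finite field `F` -/
def HasPGMinorF {α : Type*} (M : Matroid α) (k : ℕ) (F : Type) [Field F] : Prop :=
  ∃ N : Matroid α, N ≤m M ∧
    ∃ φ : Projectivization F (Fin (k + 1) → F) → α, Set.BijOn φ Set.univ N.E ∧
      ∀ I : Set (Projectivization F (Fin (k + 1) → F)),
        N.Indep (φ '' I) ↔ LinearIndependent F (fun x : I => x.1.rep)

/-- the field with two elements -/
abbrev F2 : Type := ZMod 2

section lm

variable {E : Type} [Finite E] {W : Type} [AddCommGroup W] [Module F2 W]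

theorem Lb_finrank {f : E → W} {I : Set E} (hI : LinearIndepOn F2 f I) :
    Module.finrank F2 (Submodule.span F2 (f '' I)) = I.ncard := by
  classical
  have : Fintype I := Fintype.ofFinite I
  have h := finrank_span_eq_card (R := F2) (b := fun x : I => f x) hI
  have hr : Set.range (fun x : I => f x) = f '' I := by
    ext w; simp
  rw [hr] at h
  rw [h, ← Nat.card_eq_fintype_card]; rfl

/-- the matroid of a finite family of vectors -/
noncomputable def lm (f : E → W) : Matroid E :=
  (IndepMatroid.ofFinite (Set.finite_univ) (fun I => LinearIndepOn F2 f I)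
    (linearIndepOn_empty F2 f) (fun _ _ hJ hIJ => hJ.mono hIJ)
    (by
      intro I J hI hJ hlt
      by_contra hcon
      push Not at hcon
      have hsub : Submodule.span F2 (f '' J) ≤ Submodule.span F2 (f '' I) := by
        rw [Submodule.span_le]
        rintro _ ⟨e, he, rfl⟩
        by_cases heI : e ∈ I
        · exact Submodule.subset_span ⟨e, heI, rfl⟩
        · by_contra hn
          exact hcon e he heI ((linearIndepOn_insert heI).2 ⟨hI, hn⟩)
      have hfin : Module.Finite F2 (Submodule.span F2 (f '' I)) :=
        Module.Finite.span_of_finite F2 (Set.toFinite _)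
      have := Submodule.finrank_mono hsub
      rw [Lb_finrank hI, Lb_finrank hJ] at this
      omega)
    (fun I _ => Set.subset_univ I)).matroid

@[simp] theorem lm_E (f : E → W) : (lm f).E = Set.univ := rfl

@[simp] theorem lm_indep (f : E → W) (I : Set E) : (lm f).Indep I ↔ LinearIndepOn F2 f I := Iff.rfl

theorem lm_finite (f : E → W) : (lm f).Finite := ⟨Set.toFinite _⟩

end lm

/-- the edges of `K_N` -/
abbrev Ed (N : ℕ) : Type := {p : Fin N × Fin N // p.1 < p.2}

/-- the vector of a pair of vertices -/
def pv {N : ℕ} (u v : Fin N) : Fin N → F2 := Pi.single u 1 + Pi.single v 1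

/-- the vector of an edge in the cycle matroid -/
def gv {N : ℕ} (e : Ed N) : Fin N → F2 := pv e.1.1 e.1.2

/-- the coboundary -/
def cob (N : ℕ) : (Fin N → F2) →ₗ[F2] (Ed N → F2) where
  toFun s e := s e.1.1 + s e.1.2
  map_add' s s' := by
    funext e
    show s e.1.1 + s' e.1.1 + (s e.1.2 + s' e.1.2) = s e.1.1 + s e.1.2 + (s' e.1.1 + s' e.1.2)
    ring
  map_smul' a s := by
    funext e
    show a * s e.1.1 + a * s e.1.2 = a * (s e.1.1 + s e.1.2)
    ring

/-- the space of the dual of the cycle matroid -/
abbrev Bs (N : ℕ) : Type := (Ed N → F2) ⧸ LinearMap.range (cob N)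

/-- the vector of an edge in the dual -/
def cv {N : ℕ} (e : Ed N) : Bs N := Submodule.Quotient.mk (Pi.single e 1)

/-- the edge `{i, i+1}` -/
def pe {N : ℕ} (i : ℕ) (h : i + 1 < N) : Ed N :=
  ⟨(⟨i, Nat.lt_of_succ_lt h⟩, ⟨i + 1, h⟩), Nat.lt_succ_self i⟩

/-- the vector of the edge `{i, i+1}` in the dual -/
noncomputable def cp (N i : ℕ) : Bs N := if h : i + 1 < N then cv (pe i h) else 0

/-- the vectors of the vertices in the common space -/
noncomputable def tv (n N : ℕ) (j : Fin N) : Bs N × (Fin N → F2) :=
  if j.1 ≤ n then (∑ i ∈ Finset.range j.1, cp N i, 0) else (0, Pi.single j 1)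

/-- the linear map given by `tv` -/
noncomputable def tmap (n N : ℕ) : (Fin N → F2) →ₗ[F2] (Bs N × (Fin N → F2)) :=
  Fintype.linearCombination F2 (tv n N)

/-- the vectors of the glued matroid -/
noncomputable def vec (n N : ℕ) : Ed N ⊕ Ed N → Bs N × (Fin N → F2) :=
  Sum.elim (fun e => tv n N e.1.1 + tv n N e.1.2) (fun e => (cv e, 0))

/-- the glued matroid -/
noncomputable def gm (n N : ℕ) : Matroid (Ed N ⊕ Ed N) := lm (vec n N)

/-- the vector of an unordered pair -/
def wv {m : ℕ} : Sym2 (Fin m) → (Fin m → F2) :=
  Sym2.lift ⟨fun a b => pv a b, fun a b => by unfold pv; exact add_comm _ _⟩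

end Pool.Agent.H.MP_60a1a2_co
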