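import Pool.Agent.H.MP_60a1a2_co.Lb.LmA

/-!
# The dual of the cycle matroid

PROOF: `ext_indep`, ground sets `univ`. `(lm gv)✶.Indep I ↔ (lm gv).Coindep I ↔ (lm gv).Spanning Iᶜ` (`coindep_iff_compl_spanning`)
`↔ ∀ e, gv e ∈ span (gv '' Iᶜ)` (`lm_spanning`) `↔` every functional `s` on `Fin N → F2` (`x ↦ ∑ u, s u * x u`) which vanishes on
`gv '' Iᶜ` vanishes on all `gv e` (`Submodule.exists_dual_map_eq_bot_of_notMem` or `Submodule.dualAnnihilator`; every functional is
of this form). The value at `gv e` is `cob N s e`. So: every `cob N s` which is zero off `I` is zero. And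
`LinearIndepOn F2 cv I ↔` the same: a relation `∑ e ∈ I, a e • cv e = 0` is `∑ e ∈ I, a e • Pi.single e 1 = cob N s`
(`Submodule.Quotient.mk_eq_zero`).
-/

set_option autoImplicit false

open Matroid Module Submodule

namespace Pool.Agent.H.MP_60a1a2_co

private theorem Dua_sum {N : ℕ} (l : Ed N →₀ F2) :
    Finsupp.linearCombination F2 (fun e : Ed N => (Pi.single e 1 : Ed N → F2)) l = ⇑l := by
  funext e'
  rw [Finsupp.linearCombination_apply, Finsupp.sum_fintype _ _ (fun i => by simp)]
  simp [Finset.sum_apply, Pi.single_apply]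

private theorem Dua_comb {N : ℕ} (l : Ed N →₀ F2) :
    Finsupp.linearCombination F2 (cv (N := N)) l =
      (Submodule.Quotient.mk (⇑l) : Bs N) := by
  have h1 := Finsupp.apply_linearCombination F2 (LinearMap.range (cob N)).mkQ
    (fun e : Ed N => (Pi.single e 1 : Ed N → F2)) l
  rw [Dua_sum] at h1
  exact h1.symm

private theorem Dua_cv {N : ℕ} (I : Set (Ed N)) :
    LinearIndepOn F2 (cv (N := N)) I ↔
      ∀ s : Fin N → F2, (∀ e, e ∉ I → cob N s e = 0) → cob N s = 0 := by
  rw [linearIndepOn_iff]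
  constructor
  · intro h s hs
    have h1 := h (Finsupp.equivFunOnFinite.symm (cob N s)) ?_ ?_
    · have h2 := congrArg (fun l : Ed N →₀ F2 => (⇑l : Ed N → F2)) h1
      simpa using h2
    · rw [Finsupp.mem_supported']
      intro e he
      exact hs e he
    · rw [Dua_comb, Submodule.Quotient.mk_eq_zero]
      exact ⟨s, rfl⟩
  · intro h l hl hl0
    rw [Dua_comb, Submodule.Quotient.mk_eq_zero] at hl0
    obtain ⟨s, hs⟩ := hl0
    rw [Finsupp.mem_supported'] at hl
    have h1 := h s fun e he => by rw [hs]; exact hl e he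
    refine DFunLike.coe_injective ?_
    rw [← hs, h1]
    rfl

private theorem Dua_fun {N : ℕ} (f : (Fin N → F2) →ₗ[F2] F2) (e : Ed N) :
    cob N (fun u => f (Pi.single u 1)) e = f (gv e) := by
  show f (Pi.single e.1.1 1) + f (Pi.single e.1.2 1) = f (gv e)
  rw [← map_add]
  rfl

private theorem Dua_gv {N : ℕ} (I : Set (Ed N)) :
    (∀ e, gv e ∈ span F2 ((gv (N := N)) '' (Set.univ \ I))) ↔
      ∀ s : Fin N → F2, (∀ e, e ∉ I → cob N s e = 0) → cob N s = 0 := by
  constructor
  · intro h s hs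
    obtain ⟨f, hf⟩ : ∃ f : (Fin N → F2) →ₗ[F2] F2, ∀ u, f (Pi.single u 1) = s u := by
      refine ⟨Fintype.linearCombination F2 s, fun u => ?_⟩
      rw [Fintype.linearCombination_apply_single, one_smul]
    have hsf : s = fun u => f (Pi.single u 1) := funext fun u => (hf u).symm
    have h1 : span F2 ((gv (N := N)) '' (Set.univ \ I)) ≤ LinearMap.ker f := by
      rw [span_le]
      rintro _ ⟨e, he, rfl⟩
      show f (gv e) = 0
      rw [← Dua_fun, ← hsf]
      exact hs e he.2
    funext e
    rw [hsf, Dua_fun]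
    exact h1 (h e)
  · intro h e
    by_contra hn
    obtain ⟨f, hf, hle⟩ := Submodule.exists_le_ker_of_notMem hn
    have h1 := h (fun u => f (Pi.single u 1)) fun e' he' => by
      rw [Dua_fun]
      exact hle (subset_span ⟨e', ⟨Set.mem_univ _, he'⟩, rfl⟩)
    apply hf
    rw [← Dua_fun, h1]
    rfl

theorem lm_cv (N : ℕ) : lm (cv (N := N)) = (lm (gv (N := N)))✶ := by
  refine Matroid.ext_indep rfl fun I _ => ?_
  have h1 : (lm (gv (N := N)))✶.Indep I ↔ (lm (gv (N := N))).Spanning (Set.univ \ I) :=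
    Matroid.coindep_iff_compl_spanning (M := lm (gv (N := N))) (Set.subset_univ I)
  rw [h1, lm_spanning, Dua_gv, lm_indep, Dua_cv]

end Pool.Agent.H.MP_60a1a2_co
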