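import Pool.Agent.H.MP_60a1a2_co.Lb.Cp

/-!
# The vectors of the vertices

PROOF: `tmap_pv`: `Fintype.linearCombination_apply_single`. `tmap_pe`: `tv (i + 1) + tv i = (cp N i, 0)` (characteristic 2,
`Finset.sum_range_succ`; `i + 1 ≤ n`). `tmap_inj`: an element `x` of the span of the edge vectors has `∑ j, x j = 0`
(span induction). Let `tmap x = 0`. Second component: `x j = 0` for `j > n`. First component:
`∑ j ≤ n, x j • ∑ i < j, cp N i = ∑ i < n, (∑ j in (i, n], x j) • cp N i = 0`, so by `cp_indep` all tails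
`∑ j in (i, n], x j` (`i < n`) are zero, so `x j = 0` for `1 ≤ j ≤ n`, and `x 0 = 0` as the sum of all is zero.
-/

set_option autoImplicit false

open Module Submodule

namespace Pool.Agent.H.MP_60a1a2_co

theorem tmap_pv (n N : ℕ) (u v : Fin N) : tmap n N (pv u v) = tv n N u + tv n N v := by
  unfold tmap pv
  rw [map_add, Fintype.linearCombination_apply_single, Fintype.linearCombination_apply_single,
    one_smul, one_smul]

private theorem Tm_two {W : Type} [AddCommGroup W] [Module F2 W] (x : W) : x + x = 0 := by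
  rw [← two_smul F2 x, show (2 : F2) = 0 from rfl, zero_smul]

theorem tmap_pe {n N i : ℕ} (h : i + 1 < N) (hi : i < n) :
    tmap n N (gv (pe i h)) = (cv (pe i h), 0) := by
  have h1 : tmap n N (gv (pe i h)) =
      tv n N ⟨i, Nat.lt_of_succ_lt h⟩ + tv n N ⟨i + 1, h⟩ := tmap_pv n N _ _
  have h2 : tv n N ⟨i, Nat.lt_of_succ_lt h⟩ = (∑ k ∈ Finset.range i, cp N k, 0) :=
    if_pos (show i ≤ n by omega)
  have h3 : tv n N ⟨i + 1, h⟩ = (∑ k ∈ Finset.range (i + 1), cp N k, 0) :=
    if_pos (show i + 1 ≤ n by omega)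
  have h4 : cp N i = cv (pe i h) := dif_pos h
  rw [h1, h2, h3, Finset.sum_range_succ, h4, Prod.mk_add_mk, ← add_assoc, Tm_two, zero_add,
    add_zero]

private theorem Tm_sum {N : ℕ} (x : Fin N → F2) (hx : x ∈ span F2 (Set.range (gv (N := N)))) :
    ∑ j, x j = 0 := by
  induction hx using Submodule.span_induction with
  | mem x hx =>
    obtain ⟨e, rfl⟩ := hx
    unfold gv pv
    simp only [Pi.add_apply, Finset.sum_add_distrib, Pi.single_apply, Finset.sum_ite_eq',
      Finset.mem_univ, if_true]
    rfl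
  | zero => simp
  | add x y _ _ hx hy =>
    simp only [Pi.add_apply, Finset.sum_add_distrib]
    rw [hx, hy, add_zero]
  | smul a x _ hx =>
    simp only [Pi.smul_apply]
    rw [← Finset.smul_sum, hx, smul_zero]

private theorem Tm_step {N : ℕ} (x : Fin N → F2) (k : Fin N) :
    (∑ j : Fin N, if k.1 ≤ j.1 then x j else 0) =
      x k + ∑ j : Fin N, if k.1 + 1 ≤ j.1 then x j else 0 := by
  have h1 : x k = ∑ j : Fin N, if j = k then x j else 0 := by
    rw [Finset.sum_ite_eq' Finset.univ k x, if_pos (Finset.mem_univ k)]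
  rw [h1, ← Finset.sum_add_distrib]
  refine Finset.sum_congr rfl fun j _ => ?_
  by_cases hjk : j = k
  · subst hjk
    rw [if_pos le_rfl, if_pos rfl, if_neg (by omega), add_zero]
  · have h2 : j.1 ≠ k.1 := fun h => hjk (Fin.ext h)
    rw [if_neg hjk, zero_add]
    by_cases h3 : k.1 + 1 ≤ j.1
    · rw [if_pos h3, if_pos (by omega)]
    · rw [if_neg h3, if_neg (by omega)]

theorem tmap_inj {n N : ℕ} (hN : n + 2 ≤ N) :
    ∀ x ∈ span F2 (Set.range (gv (N := N))), tmap n N x = 0 → x = 0 := by
  intro x hx h0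
  have hsum := Tm_sum x hx
  have h1 : ∑ j, x j • tv n N j = 0 := by
    rwa [tmap, Fintype.linearCombination_apply] at h0
  have hbig : ∀ k : Fin N, n < k.1 → x k = 0 := by
    intro k hk
    have h2 := congrFun (congrArg Prod.snd h1) k
    rw [Prod.snd_sum, Finset.sum_apply] at h2
    have h3 : ∑ j, (x j • tv n N j).2 k = x k := by
      rw [Finset.sum_eq_single k]
      · simp [tv, not_le.2 hk]
      · intro j _ hj
        by_cases hjn : j.1 ≤ n
        · simp [tv, hjn]
        · simp [tv, hjn, hj.symm]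
      · simp
    rw [h3] at h2
    exact h2
  have h4 : ∑ i : Fin n, (∑ j : Fin N, if i.1 + 1 ≤ j.1 then x j else 0) • cp N i.1 = 0 := by
    have h5 : ∑ j, (x j • tv n N j).1 = 0 := by
      rw [← Prod.fst_sum, h1]
      rfl
    rw [← h5]
    simp_rw [Finset.sum_smul]
    rw [Finset.sum_comm]
    refine Finset.sum_congr rfl fun j _ => ?_
    by_cases hjn : j.1 ≤ n
    · have h6 : (x j • tv n N j).1 = x j • ∑ i ∈ Finset.range j.1, cp N i := by
        simp [tv, hjn]
      rw [h6, Finset.smul_sum,
        Fin.sum_univ_eq_sum_range (fun i => (if i + 1 ≤ j.1 then x j else 0) • cp N i) n,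
        ← Finset.sum_subset (s₁ := Finset.range j.1) (Finset.range_mono hjn)]
      · refine Finset.sum_congr rfl fun i hi => ?_
        rw [if_pos (Nat.succ_le_of_lt (Finset.mem_range.1 hi))]
      · intro i _ hi
        have h8 : ¬ i + 1 ≤ j.1 := fun h => hi (Finset.mem_range.2 h)
        rw [if_neg h8, zero_smul]
    · rw [hbig j (by omega)]
      simp
  have h7 := Fintype.linearIndependent_iff.1 (cp_indep hN) _ h4
  have hT : ∀ m ≤ n + 1, (∑ j : Fin N, if m ≤ j.1 then x j else 0) = 0 := by
    intro m hm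
    rcases m with _ | m
    · rw [← hsum]
      exact Finset.sum_congr rfl fun j _ => if_pos (Nat.zero_le _)
    · by_cases hmn : m < n
      · exact h7 ⟨m, hmn⟩
      · refine Finset.sum_eq_zero fun j _ => ?_
        by_cases h8 : m + 1 ≤ j.1
        · rw [if_pos h8]
          exact hbig j (by omega)
        · rw [if_neg h8]
  funext k
  by_cases hk : k.1 ≤ n
  · have h8 := Tm_step x k
    rw [hT k.1 (by omega), hT (k.1 + 1) (by omega), add_zero] at h8
    exact h8.symm
  · exact hbig k (by omega)

end Pool.Agent.H.MP_60a1a2_co
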