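import Pool.Agent.H.MP_60a1a2_co.Lb.LmA
import Pool.Agent.H.MP_60a1a2_co.Lb.Tm

/-!
# Interconnectivity

PROOF: the vectors `(cp N i, 0)`, `i < n`, are linearly independent (`cp_indep`) and equal to `vec (inl (pe i))` (`tmap_pv`, `tmap_pe`) and to
`vec (inr (pe i))`. For `X` with `N1.E ⊆ X ⊆ univ \ N2.E` they are in `span (vec '' X)` and in `span (vec '' (univ \ X))`.
`finrank (A ⊔ B) + finrank (A ⊓ B) = finrank A + finrank B` (`Submodule.finrank_sup_add_finrank_inf_eq`), `A ⊔ B = span (vec '' univ)`,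
`n ≤ finrank (A ⊓ B)`; `lm_eRk`, `lm_eRank`.
-/

set_option autoImplicit false

open Matroid Module Submodule

namespace Pool.Agent.H.MP_60a1a2_co

private theorem Intc_w {n N : ℕ} (hN : n + 2 ≤ N) :
    LinearIndependent F2 (fun i : Fin n => ((cp N i.1, 0) : Bs N × (Fin N → F2))) := by
  have h := (cp_indep hN).map' (LinearMap.inl F2 (Bs N) (Fin N → F2))
    (LinearMap.ker_eq_bot.2 LinearMap.inl_injective)
  exact h

private theorem Intc_rk {n N : ℕ} (hN : n + 2 ≤ N) (A : Submodule F2 (Bs N × (Fin N → F2)))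
    [Module.Finite F2 A] (h : ∀ i : Fin n, ((cp N i.1, 0) : Bs N × (Fin N → F2)) ∈ A) :
    n ≤ finrank F2 A := by
  have h1 := finrank_span_eq_card (R := F2) (Intc_w hN)
  rw [Fintype.card_fin] at h1
  rw [← h1]
  refine Submodule.finrank_mono (span_le.2 ?_)
  rintro _ ⟨i, rfl⟩
  exact h i

theorem con {n N : ℕ} (hN : n + 2 ≤ N) {N1 N2 : Matroid (Ed N ⊕ Ed N)}
    (h1 : N1.E ⊆ Set.range Sum.inl) (h2 : N2.E ⊆ Set.range Sum.inr)
    (h3 : ∀ i, i < n → ∀ h : i + 1 < N, Sum.inl (pe i h) ∈ N1.E)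
    (h4 : ∀ i, i < n → ∀ h : i + 1 < N, Sum.inr (pe i h) ∈ N2.E) :
    Interconnected (gm n N) N1 N2 n := by
  refine ⟨?_, fun X hX1 hX2 => ?_⟩
  · rw [Set.disjoint_left]
    intro x hx1 hx2
    obtain ⟨a, ha⟩ := h1 hx1
    obtain ⟨b, hb⟩ := h2 hx2
    rw [← ha] at hb
    exact absurd hb (by simp)
  · have hE : (gm n N).E = Set.univ := rfl
    rw [hE] at hX2 ⊢
    have hA : Module.Finite F2 (span F2 (vec n N '' X)) :=
      Module.Finite.span_of_finite F2 (Set.toFinite _)
    have hB : Module.Finite F2 (span F2 (vec n N '' (Set.univ \ X))) :=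
      Module.Finite.span_of_finite F2 (Set.toFinite _)
    have e1 : (gm n N).eRank = (finrank F2 (span F2 (vec n N '' Set.univ)) : ℕ) := lm_eRank _
    have e2 : (gm n N).eRk X = (finrank F2 (span F2 (vec n N '' X)) : ℕ) := lm_eRk _ _
    have e3 : (gm n N).eRk (Set.univ \ X) =
        (finrank F2 (span F2 (vec n N '' (Set.univ \ X))) : ℕ) := lm_eRk _ _
    have e4 : span F2 (vec n N '' Set.univ) =
        span F2 (vec n N '' X) ⊔ span F2 (vec n N '' (Set.univ \ X)) := by
      rw [← span_union, ← Set.image_union, Set.union_diff_cancel (Set.subset_univ X)]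
    have e5 := Submodule.finrank_sup_add_finrank_inf_eq (span F2 (vec n N '' X))
      (span F2 (vec n N '' (Set.univ \ X)))
    have hI : Module.Finite F2 (span F2 (vec n N '' X) ⊓ span F2 (vec n N '' (Set.univ \ X)) :
        Submodule F2 (Bs N × (Fin N → F2))) :=
      Submodule.finiteDimensional_inf_left _ _
    have e6 : n ≤ finrank F2 (span F2 (vec n N '' X) ⊓ span F2 (vec n N '' (Set.univ \ X)) :
        Submodule F2 (Bs N × (Fin N → F2))) := by
      refine Intc_rk hN _ fun i => ?_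
      have hi : i.1 + 1 < N := by
        have := i.2
        omega
      have c1 : cp N i.1 = cv (pe i.1 hi) := by
        unfold cp
        exact dif_pos hi
      have v1 : vec n N (Sum.inl (pe i.1 hi)) = (cp N i.1, 0) := by
        rw [c1, ← tmap_pe hi i.2]
        exact (tmap_pv n N _ _).symm
      have v2 : vec n N (Sum.inr (pe i.1 hi)) = (cp N i.1, 0) := by
        rw [c1]
        rfl
      refine Submodule.mem_inf.2 ⟨subset_span ⟨_, hX1 (h3 i.1 i.2 hi), v1⟩,
        subset_span ⟨_, ⟨Set.mem_univ _, fun hx => ?_⟩, v2⟩⟩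
      exact (hX2 hx).2 (h4 i.1 i.2 hi)
    rw [e1, e2, e3, e4]
    have e7 : n + finrank F2 (span F2 (vec n N '' X) ⊔ span F2 (vec n N '' (Set.univ \ X)) :
        Submodule F2 (Bs N × (Fin N → F2))) ≤ finrank F2 (span F2 (vec n N '' X)) +
        finrank F2 (span F2 (vec n N '' (Set.univ \ X))) := by
      omega
    exact_mod_cast e7

end Pool.Agent.H.MP_60a1a2_co
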