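import Pool.Agent.H.MP_60a1a2_co.Lb.Def

/-!
# Independence of `J ∪ C`

PROOF: let `P : (Fin N → F2) →ₗ (Fin m → F2)`, `P (single u 1) = single (π u) 1` (`Fintype.linearCombination`). `P (gv e) = wv s(π e.1, π e.2)` and `P` is `0` on
`gv '' C` (`h1`, characteristic 2). Claim: if `x` has coordinate sum zero (all vectors in the span of `gv`) and `P x = 0` then `x ∈ span (gv '' C)`: with a
representative `r u` of the class of `u` (`π (r u) = π u`, `r` depends on `π u` only), `x = ∑ u, x u • single u 1 = ∑ u, x u • pv u (r u) + ∑ u, x u • single (r u) 1`,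
the last sum is zero as `P x = 0`, and `pv u (r u) ∈ span (gv '' C)` by `h2`. (The coordinate sum is not needed.) So for `J` disjoint from `C`:
`J ∪ C` is independent iff `gv` is independent on `J` modulo `span (gv '' C)` (`C` is independent; `linearIndepOn_union_iff_quotient` or by hand), iff `P ∘ gv` is
independent on `J`.
-/

set_option autoImplicit false

open Matroid Module Submodule

namespace Pool.Agent.H.MP_60a1a2_co

private noncomputable def MkAP {N m : ℕ} (π : Fin N → Fin m) : (Fin N → F2) →ₗ[F2] (Fin m → F2) :=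
  Fintype.linearCombination F2 (fun u => Pi.single (π u) (1 : F2))

private theorem MkA_single {N m : ℕ} (π : Fin N → Fin m) (u : Fin N) :
    MkAP π (Pi.single u 1) = Pi.single (π u) 1 := by
  unfold MkAP
  rw [Fintype.linearCombination_apply_single, one_smul]

private theorem MkA_pv {N m : ℕ} (π : Fin N → Fin m) (u v : Fin N) :
    MkAP π (pv u v) = pv (π u) (π v) := by
  unfold pv
  rw [map_add, MkA_single, MkA_single]

private theorem MkA_self {m : ℕ} (a : Fin m) : pv a a = 0 := by
  funext i
  change (Pi.single a (1 : F2) : Fin m → F2) i + (Pi.single a (1 : F2) : Fin m → F2) i = 0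
  exact CharTwo.add_self_eq_zero _

private theorem MkA_ker {N m : ℕ} (π : Fin N → Fin m) (C : Set (Ed N))
    (h2 : ∀ u v, π u = π v → pv u v ∈ span F2 (gv '' C)) (x : Fin N → F2) (hx : MkAP π x = 0) :
    x ∈ span F2 (gv '' C) := by
  rcases isEmpty_or_nonempty (Fin N) with he | hne
  · rw [Subsingleton.elim x 0]
    exact zero_mem _
  · let r : Fin m → Fin N := Function.invFun π
    have hr : ∀ u, π (r (π u)) = π u := fun u => Function.invFun_eq ⟨u, rfl⟩
    let L : (Fin m → F2) →ₗ[F2] (Fin N → F2) :=
      Fintype.linearCombination F2 (fun b => Pi.single (r b) (1 : F2))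
    have hL : ∀ b, L (Pi.single b 1) = Pi.single (r b) 1 := fun b => by
      change Fintype.linearCombination F2 _ _ = _
      rw [Fintype.linearCombination_apply_single, one_smul]
    have hx1 : x = ∑ u, x u • (Pi.single u (1 : F2) : Fin N → F2) := by
      have := pi_eq_sum_univ' x
      refine this.trans (Finset.sum_congr rfl fun u _ => ?_)
      congr 1
    have hx2 : MkAP π x = ∑ u, x u • (Pi.single (π u) (1 : F2) : Fin m → F2) := by
      unfold MkAP
      rw [Fintype.linearCombination_apply]
    have hx3 : ∑ u, x u • (Pi.single (r (π u)) (1 : F2) : Fin N → F2) = 0 := by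
      have h3 : L (MkAP π x) = 0 := by rw [hx, map_zero]
      rw [hx2, map_sum] at h3
      rw [← h3]
      refine Finset.sum_congr rfl fun u _ => ?_
      rw [map_smul, hL]
    have hx4 : x = ∑ u, x u • pv u (r (π u)) := by
      unfold pv
      simp only [smul_add, Finset.sum_add_distrib]
      rw [hx3, add_zero]
      exact hx1
    rw [hx4]
    exact Submodule.sum_mem _ fun u _ => Submodule.smul_mem _ _ (h2 _ _ (hr u).symm)

/-- independence of `J ∪ C` -/
theorem mk_indep {N m : ℕ} (π : Fin N → Fin m) (C J : Set (Ed N)) (hJC : Disjoint J C)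
    (hC : LinearIndepOn F2 gv C) (h1 : ∀ e ∈ C, π e.1.1 = π e.1.2)
    (h2 : ∀ u v, π u = π v → pv u v ∈ span F2 (gv '' C)) :
    LinearIndepOn F2 gv (J ∪ C) ↔ LinearIndepOn F2 (fun e : Ed N => wv s(π e.1.1, π e.1.2)) J := by
  rw [Set.union_comm, ← hC.quotient_iff_union hJC.symm]
  have hle : span F2 (gv '' C) ≤ LinearMap.ker (MkAP π) := by
    rw [span_le]
    rintro _ ⟨e, he, rfl⟩
    change MkAP π (gv e) = 0
    unfold gv
    rw [MkA_pv, h1 e he, MkA_self]
  have hinj : Function.Injective ((span F2 (gv '' C)).liftQ (MkAP π) hle) := by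
    rw [← LinearMap.ker_eq_bot]
    refine Submodule.ker_liftQ_eq_bot _ _ _ fun x hx => ?_
    exact MkA_ker π C h2 x hx
  have hcomp : (fun e : Ed N => wv s(π e.1.1, π e.1.2)) =
      ((span F2 (gv '' C)).liftQ (MkAP π) hle) ∘ (mkQ (span F2 (gv '' C)) ∘ gv) := by
    funext e
    change pv (π e.1.1) (π e.1.2) = MkAP π (gv e)
    unfold gv
    rw [MkA_pv]
  rw [hcomp]
  exact (LinearMap.linearIndepOn_iff_of_injOn _ hinj.injOn).symm

end Pool.Agent.H.MP_60a1a2_co
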