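import Pool.Agent.H.MP_60a1a2_co.Lb.Ac
import Pool.Agent.H.MP_60a1a2_co.Lb.MkA

/-!
# Clique minors

PROOF: the ground set of the matroid is `j '' S`, `S = (C ∪ K)ᶜ`; `φ = (e ↦ s(π e.1, π e.2)) ∘ j⁻¹` (`Function.invFun j` or `Function.extend`; `Ed N` may be
empty), a bijection of `j '' S` onto the pairs (`h3`). For `J ⊆ S`: `j '' J` is independent iff `J ∪ C` is independent for `gv` (`delete_indep_iff`,
`Indep.contract_indep_iff`, `map_indep_iff`; `j '' C` is independent), iff `wv ∘ (e ↦ s(π e.1, π e.2))` is independent on `J` (`mk_indep`), iff `wv` is independent on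
`φ '' (j '' J)` (injective on `J`; `LinearIndepOn` of an image), iff the graph is acyclic (`ac_iff`).
-/

set_option autoImplicit false

open Matroid Module Submodule

namespace Pool.Agent.H.MP_60a1a2_co

theorem isMK_minor {N m : ℕ} {α : Type} (j : Ed N → α) (hj : Function.Injective j)
    (π : Fin N → Fin m) (C K : Set (Ed N)) (hCK : Disjoint C K)
    (hC : LinearIndepOn F2 gv C) (h1 : ∀ e ∈ C, π e.1.1 = π e.1.2)
    (h2 : ∀ u v, π u = π v → pv u v ∈ span F2 (gv '' C))
    (h3 : Set.BijOn (fun e : Ed N => s(π e.1.1, π e.1.2)) (C ∪ K)ᶜ {x | ¬ x.IsDiag})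
    (hm : 0 < m) :
    IsMK (((lm (gv (N := N))).map j hj.injOn) ／ (j '' C) ＼ (j '' K)) m := by
  classical
  set g : Ed N → Sym2 (Fin m) := fun e => s(π e.1.1, π e.1.2) with hg
  set φ : α → Sym2 (Fin m) := Function.extend j g (fun _ => s(⟨0, hm⟩, ⟨0, hm⟩)) with hφ
  have hφj : ∀ e, φ (j e) = g e := fun e => hj.extend_apply _ _ e
  have hE : (((lm (gv (N := N))).map j hj.injOn) ／ (j '' C) ＼ (j '' K)).E = j '' (C ∪ K)ᶜ := by
    rw [Matroid.delete_ground, Matroid.contract_ground, Matroid.map_ground, lm_E]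
    ext a
    simp only [Set.mem_sdiff, Set.mem_image, Set.mem_univ, true_and, Set.mem_compl_iff,
      Set.mem_union, not_or]
    constructor
    · rintro ⟨⟨⟨e, rfl⟩, h5⟩, h6⟩
      exact ⟨e, ⟨fun h => h5 ⟨e, h, rfl⟩, fun h => h6 ⟨e, h, rfl⟩⟩, rfl⟩
    · rintro ⟨e, ⟨h5, h6⟩, rfl⟩
      refine ⟨⟨⟨e, rfl⟩, ?_⟩, ?_⟩
      · rintro ⟨f, hf, hfe⟩
        exact h5 (hj hfe ▸ hf)
      · rintro ⟨f, hf, hfe⟩
        exact h6 (hj hfe ▸ hf)
  have hmi : ∀ X : Set (Ed N), ((lm (gv (N := N))).map j hj.injOn).Indep (j '' X) ↔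
      LinearIndepOn F2 gv X := by
    intro X
    rw [Matroid.map_image_indep_iff (Set.subset_univ X), lm_indep]
  refine ⟨φ, ?_, ?_⟩
  · rw [hE]
    refine ⟨?_, ?_, ?_⟩
    · rintro _ ⟨e, he, rfl⟩
      rw [hφj]
      exact h3.mapsTo he
    · rintro _ ⟨e, he, rfl⟩ _ ⟨f, hf, rfl⟩ hef
      rw [hφj, hφj] at hef
      rw [h3.injOn he hf hef]
    · intro x hx
      obtain ⟨e, he, hex⟩ := h3.surjOn hx
      exact ⟨j e, ⟨e, he, rfl⟩, (hφj e).trans hex⟩
  · intro I hI
    rw [hE] at hI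
    obtain ⟨J, hJ, rfl⟩ := Set.subset_image_iff.mp hI
    have hJC : Disjoint J C := by
      rw [Set.disjoint_left]
      intro e he he'
      exact hJ he (Or.inl he')
    have hJK : Disjoint J K := by
      rw [Set.disjoint_left]
      intro e he he'
      exact hJ he (Or.inr he')
    have himg : φ '' (j '' J) = g '' J := by
      rw [Set.image_image]
      exact Set.image_congr fun e _ => hφj e
    rw [himg, Matroid.delete_indep_iff, ((hmi C).mpr hC).contract_indep_iff, ← Set.image_union,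
      hmi, mk_indep π C J hJC hC h1 h2, ac_iff (g '' J)]
    · have hinj : Set.InjOn g J := h3.injOn.mono hJ
      constructor
      · rintro ⟨⟨_, h5⟩, _⟩
        exact LinearIndepOn.image_of_comp (f := g) (g := wv) h5
      · intro h5
        refine ⟨⟨(Set.disjoint_image_iff hj).mpr hJC, ?_⟩, (Set.disjoint_image_iff hj).mpr hJK⟩
        exact LinearIndepOn.comp_of_image (v := wv) (f := g) h5 hinj
    · rintro _ ⟨e, he, rfl⟩
      exact h3.mapsTo (hJ he)

end Pool.Agent.H.MP_60a1a2_co
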