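import Pool.Agent.H.MP_60a1a2_co.Lb.LmC

/-!
# No `U_{k,2k}`-minor

PROOF: `lm_minor`: the minor is given by vectors `y e` in a quotient. Let `x_1, …, x_k, a, b` be different elements (`2 k ≥ k + 2`). Every `k` elements are
independent, every `k + 1` elements are dependent. `y a ∈ span (y x_i)`: `y a = ∑ c_i y x_i`; if `c_i = 0` for some `i` then the `k` elements
`x_j` (`j ≠ i`), `a` are dependent; so all `c_i = 1` (field with two elements) and `y a = ∑ y x_i`; likewise `y b = ∑ y x_i`, so `y a = y b`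
and `{a, b}` is dependent, but `2 ≤ k`.
-/

set_option autoImplicit false

open Matroid Module Submodule

namespace Pool.Agent.H.MP_60a1a2_co

private theorem Nou_sum {E : Type} {Q : Type} [AddCommGroup Q] [Module F2 Q] [DecidableEq E]
    (y : E → Q) (F X : Finset E) {k : ℕ} (hX : X ⊆ F) (hXk : X.card = k) {a : E} (ha : a ∈ F)
    (haX : a ∉ X)
    (h : ∀ I : Finset E, I ⊆ F → (LinearIndepOn F2 y (I : Set E) ↔ I.card ≤ k)) :
    y a = ∑ x ∈ X, y x := by
  have h2 : ¬ LinearIndepOn F2 y ((insert a X : Finset E) : Set E) := by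
    rw [h _ (Finset.insert_subset ha hX), Finset.card_insert_of_notMem haX]
    omega
  have h1 : LinearIndepOn F2 y (X : Set E) := (h X hX).2 hXk.le
  rw [Finset.coe_insert, linearIndepOn_insert (by simpa using haX)] at h2
  have h3 : y a ∈ span F2 (y '' (X : Set E)) := by
    by_contra h4
    exact h2 ⟨h1, h4⟩
  obtain ⟨c, hc⟩ := (Submodule.mem_span_image_finset_iff_exists_fun' F2).1 h3
  have h01 : ∀ t : F2, t ≠ 1 → t = 0 := by decide
  have hc1 : ∀ x ∈ X, c x = 1 := by
    intro x hx
    by_contra hne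
    have hc0 : c x = 0 := h01 _ hne
    have h5 : y a ∈ span F2 (y '' ((X.erase x : Finset E) : Set E)) := by
      rw [← hc, ← Finset.sum_erase_add _ _ hx, hc0, zero_smul, add_zero]
      refine Submodule.sum_mem _ fun z hz => Submodule.smul_mem _ _ (Submodule.subset_span ?_)
      exact ⟨z, hz, rfl⟩
    have hae : a ∉ X.erase x := fun h6 => haX (Finset.mem_of_mem_erase h6)
    have h6 : LinearIndepOn F2 y ((insert a (X.erase x) : Finset E) : Set E) := by
      rw [h _ (Finset.insert_subset ha ((Finset.erase_subset _ _).trans hX)),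
        Finset.card_insert_of_notMem hae, Finset.card_erase_of_mem hx, hXk]
      have : 0 < X.card := Finset.card_pos.2 ⟨x, hx⟩
      omega
    rw [Finset.coe_insert, linearIndepOn_insert (fun h7 => hae (Finset.mem_coe.1 h7))] at h6
    exact h6.2 h5
  rw [← hc]
  exact Finset.sum_congr rfl fun x hx => by rw [hc1 x hx, one_smul]

theorem no_U {E : Type} [Finite E] {W : Type} [AddCommGroup W] [Module F2 W] (v : E → W) {k : ℕ}
    (hk : 2 ≤ k) : ¬ HasUMinor (lm v) k := by
  classical
  rintro ⟨N, hN, hcard, hI⟩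
  obtain ⟨C, -, hC⟩ := lm_minor v hN
  obtain ⟨y, hy⟩ : ∃ y : E → W ⧸ span F2 (v '' C), y = fun e => (span F2 (v '' C)).mkQ (v e) :=
    ⟨_, rfl⟩
  rw [← hy] at hC
  have := Fintype.ofFinite E
  obtain ⟨F, hF⟩ : ∃ F : Finset E, (F : Set E) = N.E := ⟨N.E.toFinset, by simp⟩
  have h : ∀ I : Finset E, I ⊆ F → (LinearIndepOn F2 y (I : Set E) ↔ I.card ≤ k) := by
    intro I hIF
    have hIE : (I : Set E) ⊆ N.E := by
      rw [← hF]
      exact_mod_cast hIF
    rw [← hC _ hIE, hI _ hIE, Set.encard_coe_eq_coe_finsetCard]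
    exact Nat.cast_le
  have hFc : F.card = 2 * k := by
    rw [← hF, Set.encard_coe_eq_coe_finsetCard] at hcard
    exact_mod_cast hcard
  obtain ⟨X, hX, hXk⟩ := Finset.exists_subset_card_eq (s := F) (n := k) (by omega)
  have hXc : 1 < (F \ X).card := by
    rw [Finset.card_sdiff_of_subset hX]
    omega
  obtain ⟨a, ha, b, hb, hab⟩ := Finset.one_lt_card.1 hXc
  rw [Finset.mem_sdiff] at ha hb
  have h1 := Nou_sum y F X hX hXk ha.1 ha.2 h
  have h2 := Nou_sum y F X hX hXk hb.1 hb.2 h
  have h3 : LinearIndepOn F2 y (({a, b} : Finset E) : Set E) := by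
    rw [h _ (by
      intro x hx
      rcases Finset.mem_insert.1 hx with h4 | h4
      · rw [h4]
        exact ha.1
      · rw [Finset.mem_singleton.1 h4]
        exact hb.1)]
    exact Finset.card_le_two.trans hk
  exact hab (h3.injOn (by simp) (by simp) (h1.trans h2.symm))

end Pool.Agent.H.MP_60a1a2_co
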