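import Pool.Agent.H.MP_60a1a2_co.Lb.Def

/-!
# Projective geometries are large

PROOF: `N`, `φ` from the definition. For `x, y` in `N.E`: `x = φ p`, `y = φ q`; the family of the representatives of `{p, q}` is linearly independent
(`Projectivization.independent_pair_iff_ne`, `Projectivization.independent_iff`; `p = q`: `rep_nonzero`). An independent set of `N` is
`φ '' I` with `I` independent: at most `k + 1` elements (`LinearIndependent.fintype_card_le_finrank`), so `N.eRank ≤ k + 1` (`eRank = encard` of a
base). `N.E.ncard` = the number of points `c`, `c * (q - 1) = q ^ (k + 1) - 1` (`Projectivization.card'`, `q = Nat.card F ≥ 2`), so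
`c = ∑ i < k + 1, q ^ i ≥ ∑ i < k + 1, 2 ^ i = 2 ^ (k + 1) - 1` (`Nat.geomSum_eq`, `geom_sum_mul`).
-/

set_option autoImplicit false

open Matroid Module Submodule

namespace Pool.Agent.H.MP_60a1a2_co

theorem pg_large {α : Type} {M : Matroid α} {k : ℕ} {F : Type} [Field F] [Finite F]
    (h : HasPGMinorF M k F) : ∃ N : Matroid α, N ≤m M ∧
      (∀ x ∈ N.E, ∀ y ∈ N.E, N.Indep {x, y}) ∧ N.eRank ≤ ((k + 1 : ℕ) : ℕ∞) ∧
        2 ^ (k + 1) - 1 ≤ N.E.ncard := by
  classical
  obtain ⟨N, hN, φ, hφ, hI⟩ := h
  refine ⟨N, hN, ?_, ?_, ?_⟩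
  · intro x hx y hy
    rw [← hφ.image_eq] at hx hy
    obtain ⟨p, -, rfl⟩ := hx
    obtain ⟨q, -, rfl⟩ := hy
    rw [← Set.image_pair, hI]
    have key : LinearIndepOn F
        (Projectivization.rep : Projectivization F (Fin (k + 1) → F) → _) {p, q} := by
      by_cases hpq : p = q
      · subst hpq
        rw [Set.pair_eq_singleton]
        exact (linearIndepOn_singleton_iff F).2 (Projectivization.rep_nonzero p)
      · rw [LinearIndepOn.pair_iff _ hpq]
        have h1 := (Projectivization.independent_iff.1
          ((Projectivization.independent_pair_iff_ne p q).2 hpq))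
        have h2 : LinearIndependent F ![p.rep, q.rep] := by
          have e : Projectivization.rep ∘ ![p, q] = ![p.rep, q.rep] := by
            funext i
            fin_cases i <;> rfl
          rwa [e] at h1
        exact LinearIndependent.pair_iff.1 h2
    exact key
  · obtain ⟨B, hB⟩ := N.exists_isBase
    rw [← hB.encard_eq_eRank]
    have hBE : B ⊆ φ '' Set.univ := by
      rw [hφ.image_eq]
      exact hB.subset_ground
    have hBI : φ '' (φ ⁻¹' B) = B := by
      rw [Set.image_preimage_eq_inter_range, ← Set.image_univ]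
      exact Set.inter_eq_left.2 hBE
    have hind : N.Indep (φ '' (φ ⁻¹' B)) := by
      rw [hBI]
      exact hB.indep
    rw [hI] at hind
    have hfin : Finite (φ ⁻¹' B) := by
      exact hind.finite
    have hft : Fintype (φ ⁻¹' B) := Fintype.ofFinite _
    have h1 := hind.fintype_card_le_finrank
    rw [Module.finrank_fin_fun] at h1
    rw [← hBI]
    refine (Set.encard_image_le _ _).trans ?_
    rw [Set.encard_eq_coe_toFinset_card, Set.toFinset_card]
    exact_mod_cast h1
  · have h1 : N.E.ncard = Nat.card (Projectivization F (Fin (k + 1) → F)) := by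
      rw [← hφ.image_eq, hφ.injOn.ncard_image, Set.ncard_univ]
    rw [h1, Projectivization.card_of_finrank F (Fin (k + 1) → F) (Module.finrank_fin_fun F)]
    have hq : 2 ≤ Nat.card F := Finite.one_lt_card
    have h2 : ∀ n : ℕ, 2 ^ n - 1 ≤ ∑ i ∈ Finset.range n, Nat.card F ^ i := by
      intro n
      induction n with
      | zero => simp
      | succ n ih =>
        rw [Finset.sum_range_succ, pow_succ]
        have h3 : 2 ^ n ≤ Nat.card F ^ n := Nat.pow_le_pow_left hq n
        omega
    exact h2 _

end Pool.Agent.H.MP_60a1a2_co
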