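import Pool.Agent.H.MP_60a1a2_co.Lb.Sd
import Pool.Agent.H.MP_60a1a2_co.Lb.Mk
import Pool.Agent.H.MP_60a1a2_co.Lb.Two
import Pool.Agent.H.MP_60a1a2_co.Lb.Intc
import Pool.Agent.H.MP_60a1a2_co.Lb.Nou
import Pool.Agent.H.MP_60a1a2_co.Lb.Cnt
import Pool.Agent.H.MP_60a1a2_co.Lb.Pgc

/-!
# Lower bound for Q1: the theorem

PROOF: `pair`: from `Mdat`: `N1 = gm ＼ range inr ／ (inl '' C) ＼ (inl '' K)` (`gm_left`, `isMK_minor`); `N2 = gm ＼ range inl ／ (inr '' K) ＼ (inr '' C)`,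
`N2✶ = (gm ＼ range inl)✶ ＼ (inr '' K) ／ (inr '' C)` (`dual_contract_delete`), `gm_right`, `map_dual`, `dual_dual`, the order of the deletion and the
contraction by `contract_delete_comm` (disjoint sets), `isMK_minor`. `con`. `final`: `M = gm n N`.
-/

set_option autoImplicit false

open Matroid Module Submodule

namespace Pool.Agent.H.MP_60a1a2_co

theorem pair {n N m : ℕ} (hN : n + 2 ≤ N) (hm : 0 < m) {π : Fin N → Fin m} {C K : Set (Ed N)}
    (h : Mdat n N m π C K) : ∃ N1 N2 : Matroid (Ed N ⊕ Ed N), N1 ≤m gm n N ∧ N2 ≤m gm n N ∧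
      IsMK N1 m ∧ IsMK N2✶ m ∧ Interconnected (gm n N) N1 N2 n := by
  obtain ⟨hCK, hC, h1, h2, h3, h4⟩ := h
  have hd : Disjoint (Sum.inr '' C : Set (Ed N ⊕ Ed N)) (Sum.inr '' K) :=
    (Set.disjoint_image_iff Sum.inr_injective).2 hCK
  refine ⟨gm n N ＼ Set.range Sum.inr ／ (Sum.inl '' C) ＼ (Sum.inl '' K),
    gm n N ＼ Set.range Sum.inl ／ (Sum.inr '' K) ＼ (Sum.inr '' C), ?_, ?_, ?_, ?_, ?_⟩
  · exact (contract_delete_isMinor _ _ _).trans ⟨∅, _, by rw [contract_empty]⟩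
  · exact (contract_delete_isMinor _ _ _).trans ⟨∅, _, by rw [contract_empty]⟩
  · rw [gm_left hN]
    exact isMK_minor Sum.inl Sum.inl_injective π C K hCK hC h1 h2 h3 hm
  · rw [gm_right, dual_contract_delete,
      ← map_dual (M := lm gv) (hf := Sum.inr_injective.injOn), dual_dual,
      ← contract_delete_comm _ hd]
    exact isMK_minor Sum.inr Sum.inr_injective π C K hCK hC h1 h2 h3 hm
  · refine con hN ?_ ?_ ?_ ?_
    · intro x hx
      rcases x with e | e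
      · exact ⟨e, rfl⟩
      · exact absurd ⟨e, rfl⟩ hx.1.1.2
    · intro x hx
      rcases x with e | e
      · exact absurd ⟨e, rfl⟩ hx.1.1.2
      · exact ⟨e, rfl⟩
    · intro i hi h
      have h5 := h4 i hi h
      refine ⟨⟨⟨Set.mem_univ _, ?_⟩, ?_⟩, ?_⟩
      · rintro ⟨e, he⟩
        exact absurd he (by simp)
      · rintro ⟨e, he, hee⟩
        exact h5 (Or.inl (Sum.inl_injective hee ▸ he))
      · rintro ⟨e, he, hee⟩
        exact h5 (Or.inr (Sum.inl_injective hee ▸ he))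
    · intro i hi h
      have h5 := h4 i hi h
      refine ⟨⟨⟨Set.mem_univ _, ?_⟩, ?_⟩, ?_⟩
      · rintro ⟨e, he⟩
        exact absurd he (by simp)
      · rintro ⟨e, he, hee⟩
        exact h5 (Or.inr (Sum.inr_injective hee ▸ he))
      · rintro ⟨e, he, hee⟩
        exact h5 (Or.inl (Sum.inr_injective hee ▸ he))

theorem lower {k n N : ℕ} (hk : 2 ≤ k) (hn : 3 ≤ n) (hN : n + 2 ≤ N)
    (h : 2 * (k + n + 1) * (k + n + 2) < 2 ^ (k + 1) - 1) :
    ∃ (α : Type) (M : Matroid α), M.Finite ∧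
      (∃ (W : Type) (_ : AddCommGroup W) (_ : Module (ZMod 2) W) (v : α → W),
        ∀ I ⊆ M.E, M.Indep I ↔ LinearIndepOn (ZMod 2) v I) ∧
      (∃ N1 N2, N1 ≤m M ∧ N2 ≤m M ∧ IsMK N1 N ∧ IsMK N2✶ N ∧ Interconnected M N1 N2 n) ∧
      (∃ N1 N2, N1 ≤m M ∧ N2 ≤m M ∧ IsMK N1 n ∧ IsMK N2✶ n ∧ Interconnected M N1 N2 n) ∧
      ¬ HasUMinor M k ∧ ∀ (F : Type) [Field F] [Finite F], ¬ HasPGMinorF M k F := by
  obtain ⟨π, C, K, hd⟩ := two_id n N
  obtain ⟨π', C', K', hd'⟩ := two_n hn hN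
  refine ⟨Ed N ⊕ Ed N, gm n N, lm_finite _, ⟨_, _, _, vec n N, fun I _ => Iff.rfl⟩,
    pair hN (by omega) hd, pair hN (by omega) hd', no_U _ hk, ?_⟩
  intro F _ _ hF
  obtain ⟨Nm, h1, h2, h3, h4⟩ := pg_large hF
  have h5 := cnt hN h1 h2 h3
  have h6 : 2 * (k + 1 + n) * (k + 1 + n + 1) = 2 * (k + n + 1) * (k + n + 2) := by ring
  omega

end Pool.Agent.H.MP_60a1a2_co
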