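import Pool.Agent.H.MP_60a1a2_co.Lb.Def

/-!
# Vector matroids: closure, spanning sets, rank

PROOF: `lm_cl`: take a basis `I` of `A` (`exists_isBasis`), `span (v '' A) = span (v '' I)` (as in
`mem_span_of_isBasis` and `mem_closure_linMat` of `Pool/Agent/H/MP_827d9d_co/LinMat.lean`, which is this
file over `ℚ`; copy). `lm_spanning`: `spanning_iff_closure_eq`. `lm_eRk`: a basis `I` of `X` has
`I.encard = eRk X`, `Lb_finrank` (in Def).
-/

set_option autoImplicit false

open Matroid Module Submodule

namespace Pool.Agent.H.MP_60a1a2_co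

variable {E : Type} [Finite E] {W : Type} [AddCommGroup W] [Module F2 W]

private theorem span_of_isBasis {f : E → W} {I A : Set E} (hI : (lm f).IsBasis I A) :
    span F2 (f '' A) = span F2 (f '' I) := by
  apply le_antisymm
  · rw [Submodule.span_le]
    rintro _ ⟨e, he, rfl⟩
    by_cases heI : e ∈ I
    · exact Submodule.subset_span ⟨e, heI, rfl⟩
    · by_contra hn
      have : (lm f).Indep (insert e I) := (linearIndepOn_insert heI).2 ⟨hI.indep, hn⟩
      exact heI (hI.mem_of_insert_indep he this)
  · exact Submodule.span_mono (Set.image_mono hI.subset)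

theorem lm_cl (v : E → W) {A : Set E} {e : E} :
    e ∈ (lm v).closure A ↔ v e ∈ span F2 (v '' A) := by
  obtain ⟨I, hI⟩ := (lm v).exists_isBasis A (by simp)
  rw [← hI.closure_eq_closure, span_of_isBasis hI, hI.indep.mem_closure_iff']
  have hind : LinearIndepOn F2 v I := hI.indep
  rw [hind.mem_span_iff]
  simp

theorem lm_spanning (v : E → W) {X : Set E} :
    (lm v).Spanning X ↔ ∀ e, v e ∈ span F2 (v '' X) := by
  rw [spanning_iff_closure_eq (by simp), lm_E, Set.eq_univ_iff_forall]
  exact forall_congr' fun e => lm_cl v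

theorem lm_eRk (v : E → W) (X : Set E) :
    (lm v).eRk X = (finrank F2 (span F2 (v '' X)) : ℕ) := by
  obtain ⟨I, hI⟩ := (lm v).exists_isBasis X (by simp)
  have hind : LinearIndepOn F2 v I := hI.indep
  rw [← hI.encard_eq_eRk, span_of_isBasis hI, Lb_finrank hind]
  exact ((Set.toFinite I).cast_ncard_eq).symm

theorem lm_eRank (v : E → W) :
    (lm v).eRank = (finrank F2 (span F2 (v '' Set.univ)) : ℕ) := by
  rw [Matroid.eRank_def, lm_E]
  exact lm_eRk v Set.univ

end Pool.Agent.H.MP_60a1a2_co
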