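import Pool.Agent.H.MP_60a1a2_co.Lb.Def

/-!
# Vector matroids: linear maps, restrictions

PROOF: `lm_inj`: `ext_indep`; `LinearIndepOn` of `T ∘ v`: `LinearIndepOn.map_injOn` or
`LinearMap.linearIndependent_iff_of_injOn` (the kernel of `T` meets the span of the vectors in zero).
`lm_restr`: `ext_indep`, `map_indep_iff`, `delete_indep_iff`; independent sets of the left side are `j '' I` with
`LinearIndepOn F2 v (j '' I)`, use `linearIndepOn_image` / `LinearIndepOn.image_of_comp` / the equivalence of
`I` with `j '' I` (`Equiv.Set.image`, `linearIndependent_equiv`).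
-/

set_option autoImplicit false

open Matroid Module Submodule

namespace Pool.Agent.H.MP_60a1a2_co

variable {E : Type} [Finite E] {W : Type} [AddCommGroup W] [Module F2 W]

theorem lm_inj {W' : Type} [AddCommGroup W'] [Module F2 W'] (v : E → W) (T : W →ₗ[F2] W')
    (hT : ∀ x ∈ span F2 (Set.range v), T x = 0 → x = 0) : lm (fun e => T (v e)) = lm v := by
  refine Matroid.ext_indep rfl fun I _ => ?_
  rw [lm_indep, lm_indep]
  constructor
  · intro h
    exact LinearIndependent.of_comp T h
  · intro h
    refine LinearIndependent.map_injOn h T ?_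
    intro x hx y hy hxy
    have hsub : span F2 (Set.range fun x : I => v x) ≤ span F2 (Set.range v) := by
      refine span_mono ?_
      rintro _ ⟨a, rfl⟩
      exact ⟨a.1, rfl⟩
    have h1 : x - y ∈ span F2 (Set.range v) := sub_mem (hsub hx) (hsub hy)
    have h2 : T (x - y) = 0 := by rw [map_sub, hxy, sub_self]
    exact sub_eq_zero.1 (hT _ h1 h2)

theorem lm_restr {B : Type} [Finite B] (v : E → W) (j : B → E) (hj : Function.Injective j) :
    (lm v) ＼ (Set.range j)ᶜ = (lm (fun b => v (j b))).map j hj.injOn := by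
  refine Matroid.ext_indep ?_ fun I _ => ?_
  · rw [Matroid.delete_ground, Matroid.map_ground, lm_E, lm_E, Set.image_univ,
      ← Set.compl_eq_univ_sdiff, compl_compl]
  rw [Matroid.delete_indep_iff, Matroid.map_indep_iff, lm_indep]
  constructor
  · rintro ⟨h1, h2⟩
    have h3 : I ⊆ Set.range j := by
      intro x hx
      by_contra hn
      exact Set.disjoint_left.1 h2 hx hn
    refine ⟨j ⁻¹' I, ?_, (Set.image_preimage_eq_of_subset h3).symm⟩
    rw [lm_indep]
    have h4 : Function.Injective (fun x : (j ⁻¹' I : Set B) => (⟨j x.1, x.2⟩ : I)) := by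
      intro x y hxy
      have h5 : j x.1 = j y.1 := congrArg Subtype.val hxy
      exact Subtype.ext (hj h5)
    exact LinearIndependent.comp h1 _ h4
  · rintro ⟨I₀, h1, rfl⟩
    rw [lm_indep] at h1
    refine ⟨LinearIndepOn.image_of_comp j v h1, ?_⟩
    rw [Set.disjoint_left]
    rintro _ ⟨x, -, rfl⟩ hn
    exact hn ⟨x, rfl⟩

end Pool.Agent.H.MP_60a1a2_co
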