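import Pool.Agent.H.MP_60a1a2_co.Lb.Def

/-!
# Vector matroids: minors

PROOF: `IsMinor.exists_eq_contract_delete_disjoint`: `N = lm v ／ C ＼ D`. Let `I₀` be a basis of `C` (`exists_isBasis`).
`IsBasis.contract_indep_iff`: for `I` disjoint from `C`: `(lm v ／ C).Indep I ↔ LinearIndepOn F2 v (I ∪ I₀)`. And
`span (v '' C) = span (v '' I₀)` (see LmA / LinMat). `LinearIndepOn F2 v (I ∪ I₀)`, `I₀` independent and disjoint from `I`, iff
`v` is independent on `I` modulo `span (v '' I₀)`: `LinearIndepOn.union_iff_quotient` or `linearIndepOn_union_iff_quotient`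
(Mathlib), or by hand.
-/

set_option autoImplicit false

open Matroid Module Submodule

namespace Pool.Agent.H.MP_60a1a2_co

variable {E : Type} [Finite E] {W : Type} [AddCommGroup W] [Module F2 W]

theorem lm_minor (v : E → W) {N : Matroid E} (h : N ≤m lm v) :
    ∃ C : Set E, Disjoint N.E C ∧ ∀ I ⊆ N.E,
      N.Indep I ↔ LinearIndepOn F2 (fun e => (span F2 (v '' C)).mkQ (v e)) I := by
  obtain ⟨C, D, -, -, -, rfl⟩ := h.exists_eq_contract_delete_disjoint
  obtain ⟨J, hJ⟩ := (lm v).exists_isBasis C (by rw [lm_E]; exact Set.subset_univ C)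
  have hdj : Disjoint ((lm v ／ C ＼ D).E) C := by
    rw [delete_ground, contract_ground]
    exact Disjoint.mono_left Set.sdiff_subset Set.disjoint_sdiff_left
  have hdD : Disjoint ((lm v ／ C ＼ D).E) D := by
    rw [delete_ground]
    exact Set.disjoint_sdiff_left
  refine ⟨C, hdj, fun I hI => ?_⟩
  have hIC : Disjoint C I := (hdj.mono_left hI).symm
  have hID : Disjoint I D := hdD.mono_left hI
  have hJI : LinearIndepOn F2 v J := hJ.indep
  have hspan : span F2 (v '' C) = span F2 (v '' J) := by
    apply le_antisymm _ (span_mono (Set.image_mono hJ.subset))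
    rw [span_le]
    rintro _ ⟨e, he, rfl⟩
    by_cases heJ : e ∈ J
    · exact subset_span ⟨e, heJ, rfl⟩
    · by_contra hn
      have h1 : (lm v).Indep (insert e J) := (linearIndepOn_insert heJ).2 ⟨hJI, hn⟩
      exact heJ (hJ.mem_of_insert_indep he h1)
  rw [delete_indep_iff, hJ.contract_indep_iff, and_iff_left hIC, and_iff_left hID, lm_indep,
    hspan, Set.union_comm, linearIndepOn_union_iff_quotient (hIC.mono_left hJ.subset),
    and_iff_right hJI]
  exact Iff.rfl

end Pool.Agent.H.MP_60a1a2_co
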