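import Pool.Agent.H.MP_60a1a2_co.Lb.Dua
import Pool.Agent.H.MP_60a1a2_co.Lb.LmB
import Pool.Agent.H.MP_60a1a2_co.Lb.Tm

/-!
# The two sides of the glued matroid

PROOF: `lm_restr` with `j = Sum.inl`: `vec (inl e) = tmap (gv e)` (`tmap_pv`), `lm_inj` with `tmap_inj`; `j = Sum.inr`:
`vec (inr e) = (cv e, 0)`, `lm_inj` with `LinearMap.inl`, then `lm_cv`. `(Set.range Sum.inl)ᶜ = Set.range Sum.inr` and conversely
(`Set.compl_range_inl`, `Set.compl_range_inr`).
-/

set_option autoImplicit false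

open Matroid Module Submodule

namespace Pool.Agent.H.MP_60a1a2_co

theorem gm_left {n N : ℕ} (hN : n + 2 ≤ N) :
    gm n N ＼ Set.range (Sum.inr : Ed N → Ed N ⊕ Ed N) =
      (lm (gv (N := N))).map Sum.inl Sum.inl_injective.injOn := by
  have h1 : (fun b : Ed N => vec n N (Sum.inl b)) = fun b => tmap n N (gv b) := by
    funext b
    exact (tmap_pv n N b.1.1 b.1.2).symm
  have h2 : lm (fun b : Ed N => vec n N (Sum.inl b)) = lm (gv (N := N)) := by
    rw [h1]
    exact lm_inj gv (tmap n N) (tmap_inj hN)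
  have h3 := lm_restr (vec n N) (Sum.inl : Ed N → Ed N ⊕ Ed N) Sum.inl_injective
  rw [h2, Set.compl_range_inl] at h3
  exact h3

theorem gm_right (n N : ℕ) :
    gm n N ＼ Set.range (Sum.inl : Ed N → Ed N ⊕ Ed N) =
      ((lm (gv (N := N)))✶).map Sum.inr Sum.inr_injective.injOn := by
  have h1 : (fun b : Ed N => vec n N (Sum.inr b)) =
      fun b => LinearMap.inl F2 (Bs N) (Fin N → F2) (cv b) := by
    funext b
    rfl
  have h2 : lm (fun b : Ed N => vec n N (Sum.inr b)) = (lm (gv (N := N)))✶ := by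
    rw [h1, ← lm_cv]
    exact lm_inj cv (LinearMap.inl F2 (Bs N) (Fin N → F2)) fun x _ hx => congrArg Prod.fst hx
  have h3 := lm_restr (vec n N) (Sum.inr : Ed N → Ed N ⊕ Ed N) Sum.inr_injective
  rw [h2, Set.compl_range_inr] at h3
  exact h3

end Pool.Agent.H.MP_60a1a2_co
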